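import Pool.Agent.Q266.OC.Stm

set_option autoImplicit false

open Metric Set

namespace Pool.Agent.Q187.OC

open Pool.Agent.Q266.OC

theorem sq_norm_coord (z : ℂ) : ‖z‖ ^ 2 = z.re ^ 2 + z.im ^ 2 := by
  rw [Complex.sq_norm, Complex.normSq_apply]; ring

theorem apo_centre (p q z : ℂ) (t : ℝ) (h : 1 - t ^ 2 ≠ 0) :
    (1 - t ^ 2) ^ 2 * ‖z - (apo p q t).1‖ ^ 2 =
      ‖((1 - t ^ 2 : ℝ) : ℂ) * z - (p - ((t ^ 2 : ℝ) : ℂ) * q)‖ ^ 2 := by
  have h' : ((1 - t ^ 2 : ℝ) : ℂ) ≠ 0 := by exact_mod_cast h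
  have e : ((1 - t ^ 2 : ℝ) : ℂ) * z - (p - ((t ^ 2 : ℝ) : ℂ) * q) =
      ((1 - t ^ 2 : ℝ) : ℂ) * (z - (apo p q t).1) := by
    have : (apo p q t).1 = (p - ((t ^ 2 : ℝ) : ℂ) * q) / ((1 - t ^ 2 : ℝ) : ℂ) := by
      unfold apo; push_cast; rfl
    rw [this, mul_sub, mul_div_cancel₀ _ h']
  rw [e, norm_mul, mul_pow, Complex.norm_real, Real.norm_eq_abs, sq_abs]

theorem t_apo : S_Apo := by
  intro p q t hpq ht0 ht1
  have h1 : 0 < 1 - t ^ 2 := by nlinarith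
  have hn : 0 < ‖p - q‖ := norm_pos_iff.2 (sub_ne_zero.2 hpq)
  have hR : 0 < (apo p q t).2 := by
    show 0 < t * ‖p - q‖ / (1 - t ^ 2)
    positivity
  have hR2 : (1 - t ^ 2) ^ 2 * (apo p q t).2 ^ 2 = t ^ 2 * ‖p - q‖ ^ 2 := by
    show (1 - t ^ 2) ^ 2 * (t * ‖p - q‖ / (1 - t ^ 2)) ^ 2 = _
    field_simp
  refine ⟨hR, ?_, ?_⟩
  · intro z
    have e := apo_centre p q z t h1.ne'
    have key : (1 - t ^ 2) * (‖z - (apo p q t).1‖ ^ 2 - (apo p q t).2 ^ 2) =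
        ‖z - p‖ ^ 2 - t ^ 2 * ‖z - q‖ ^ 2 := by
      have : (1 - t ^ 2) * ((1 - t ^ 2) * (‖z - (apo p q t).1‖ ^ 2 - (apo p q t).2 ^ 2)) =
          (1 - t ^ 2) * (‖z - p‖ ^ 2 - t ^ 2 * ‖z - q‖ ^ 2) := by
        have : (1 - t ^ 2) * ((1 - t ^ 2) * (‖z - (apo p q t).1‖ ^ 2 - (apo p q t).2 ^ 2)) =
          (1 - t ^ 2) ^ 2 * ‖z - (apo p q t).1‖ ^ 2 - (1 - t ^ 2) ^ 2 * (apo p q t).2 ^ 2 := by
          ring
        rw [this, e, hR2]
        simp only [sq_norm_coord, Complex.sub_re, Complex.sub_im, Complex.mul_re, Complex.mul_im,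
          Complex.ofReal_re, Complex.ofReal_im]
        ring
      exact mul_left_cancel₀ h1.ne' this
    constructor
    · intro hz
      have hz' : ‖z - (apo p q t).1‖ = (apo p q t).2 := by
        have := hz
        unfold pts at this
        rwa [mem_sphere, dist_eq_norm] at this
      rw [hz', sub_self, mul_zero] at key
      have h2 : ‖z - p‖ ^ 2 = (t * ‖z - q‖) ^ 2 := by rw [mul_pow]; linarith
      exact (sq_eq_sq₀ (norm_nonneg _) (by positivity)).1 h2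
    · intro hz
      rw [hz, mul_pow, sub_self] at key
      have h2 : ‖z - (apo p q t).1‖ ^ 2 = (apo p q t).2 ^ 2 := by
        rcases mul_eq_zero.1 key with h | h
        · exact absurd h h1.ne'
        · linarith
      unfold pts
      rw [mem_sphere, dist_eq_norm]
      exact (sq_eq_sq₀ (norm_nonneg _) hR.le).1 h2
  · intro a r hp hq
    have hp' : ‖p - a‖ ^ 2 = r ^ 2 := by
      unfold pts at hp; rw [mem_sphere, dist_eq_norm] at hp; rw [hp]
    have hq' : ‖q - a‖ ^ 2 = r ^ 2 := by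
      unfold pts at hq; rw [mem_sphere, dist_eq_norm] at hq; rw [hq]
    have e := apo_centre p q a t h1.ne'
    rw [dist_comm, dist_eq_norm]
    have : (1 - t ^ 2) ^ 2 * ‖a - (apo p q t).1‖ ^ 2 =
        (1 - t ^ 2) ^ 2 * ((apo p q t).2 ^ 2 + r ^ 2) := by
      rw [mul_add, hR2, e]
      simp only [sq_norm_coord, Complex.sub_re, Complex.sub_im, Complex.mul_re, Complex.mul_im,
          Complex.ofReal_re, Complex.ofReal_im] at hp' hq' ⊢
      linear_combination (1 - t ^ 2) * hp' + (t ^ 4 - t ^ 2) * hq'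
    exact mul_left_cancel₀ (by positivity) this

end Pool.Agent.Q187.OC
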