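import Pool.Agent.Q187.OC.APO

set_option autoImplicit false

open Metric Set ComplexConjugate

namespace Pool.Agent.Q187.OC

open Pool.Agent.Q266.OC

theorem axes_id (u v w : ℂ) (r : ℝ) (hu : ‖u‖ ^ 2 = r ^ 2) (hv : ‖v‖ ^ 2 = r ^ 2) :
    ((w - u) * conj (w - v) * (conj u * (u - v))).re =
      (‖w‖ ^ 2 - r ^ 2) * ‖u - v‖ ^ 2 / 2 := by
  simp only [sq_norm_coord, Complex.sub_re, Complex.sub_im] at hu hv ⊢
  simp only [Complex.mul_re, Complex.mul_im, Complex.sub_re, Complex.sub_im, Complex.conj_re,
    Complex.conj_im]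
  linear_combination
    hu * ((w.re ^ 2 + w.im ^ 2) / 2 + (u.re * v.re + u.im * v.im) - (v.re ^ 2 + v.im ^ 2) / 2
      - (w.re * u.re + w.im * u.im)) +
    hv * (- (w.re ^ 2 + w.im ^ 2) / 2 - (u.re ^ 2 + u.im ^ 2) / 2 + (w.re * u.re + w.im * u.im))

theorem mem_pts_iff (a z : ℂ) (r : ℝ) (hr : 0 < r) : z ∈ pts (a, r) ↔ ‖z - a‖ ^ 2 = r ^ 2 := by
  unfold pts
  rw [mem_sphere, dist_eq_norm]
  exact (sq_eq_sq₀ (norm_nonneg _) hr.le).symm

theorem t_axes : S_Axes := by
  intro a b p q r s hr hs hpq hpa hqa hpb hqb hin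
  rw [mem_pts_iff _ _ _ hr] at hpa hqa
  rw [mem_pts_iff _ _ _ hs] at hpb hqb
  have hn : 0 < ‖p - q‖ := norm_pos_iff.2 (sub_ne_zero.2 hpq)
  have hpan : ‖p - a‖ = r := (sq_eq_sq₀ (norm_nonneg _) hr.le).1 hpa
  set N : ℝ := r * ‖p - q‖ with hN
  have hN0 : 0 < N := by positivity
  have hNc : (N : ℂ) ≠ 0 := by exact_mod_cast hN0.ne'
  set k : ℂ := conj (p - a) * (p - q) / (N : ℂ) with hk
  have hkK : conj (p - a) * (p - q) = (N : ℂ) * k := by
    rw [hk, mul_div_cancel₀ _ hNc]
  -- the number c
  obtain ⟨c, hc0, hc⟩ : ∃ c : ℝ, c ≠ 0 ∧ p - b = Complex.I * (c : ℂ) * (p - a) := by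
    have hin' : (p - a).re * (p - b).re + (p - a).im * (p - b).im = 0 := by
      rw [Complex.inner] at hin
      simp only [Complex.mul_re, Complex.conj_re, Complex.conj_im] at hin
      linarith
    refine ⟨((p - a).re * (p - b).im - (p - a).im * (p - b).re) / r ^ 2, ?_, ?_⟩
    · intro h0
      have h1 : (p - a).re * (p - b).im - (p - a).im * (p - b).re = 0 := by
        rcases div_eq_zero_iff.1 h0 with h | h
        · exact h
        · exact absurd h (by positivity)
      have h2 : (r ^ 2) * (s ^ 2) = 0 := by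
        rw [← hpa, ← hpb, sq_norm_coord, sq_norm_coord]
        have : ((p - a).re ^ 2 + (p - a).im ^ 2) * ((p - b).re ^ 2 + (p - b).im ^ 2) =
          ((p - a).re * (p - b).re + (p - a).im * (p - b).im) ^ 2 +
          ((p - a).re * (p - b).im - (p - a).im * (p - b).re) ^ 2 := by ring
        rw [this, hin', h1]
        ring
      have : 0 < r ^ 2 * s ^ 2 := by positivity
      linarith
    · have hr2 : r ^ 2 ≠ 0 := by positivity
      have e := hpa
      rw [sq_norm_coord] at e
      apply Complex.ext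
      · simp only [Complex.mul_re, Complex.mul_im, Complex.I_re, Complex.I_im, Complex.ofReal_re,
          Complex.ofReal_im]
        field_simp
        linear_combination (-(p - b).re) * e + (p - a).re * hin'
      · simp only [Complex.mul_re, Complex.mul_im, Complex.I_re, Complex.I_im, Complex.ofReal_re,
          Complex.ofReal_im]
        field_simp
        linear_combination (-(p - b).im) * e + (p - a).im * hin'
  refine ⟨k, ?_, ?_⟩
  · rw [hk, norm_div, norm_mul, RCLike.norm_conj, hpan, Complex.norm_real, Real.norm_eq_abs,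
      abs_of_pos hN0, ← hN, div_self hN0.ne']
  · intro z hz
    have hzq : 0 < ‖z - q‖ := norm_pos_iff.2 (sub_ne_zero.2 hz)
    have hzq' : z - q ≠ 0 := sub_ne_zero.2 hz
    set W : ℂ := Wm k p q z with hW
    have eW : (z - p) * conj (z - q) * k = ((‖z - q‖ ^ 2 : ℝ) : ℂ) * W := by
      rw [hW]
      unfold Wm
      have h1 : conj (z - q) * (z - q) = ((‖z - q‖ ^ 2 : ℝ) : ℂ) := by
        rw [mul_comm, Complex.mul_conj, Complex.sq_norm]
      rw [← h1]
      field_simp
    have eA := axes_id (p - a) (q - a) (z - a) r hpa hqa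
    have eB := axes_id (p - b) (q - b) (z - b) s hpb hqb
    have s1 : ∀ a : ℂ, z - a - (p - a) = z - p := fun a => by ring
    have s2 : ∀ a : ℂ, z - a - (q - a) = z - q := fun a => by ring
    have s3 : ∀ a : ℂ, p - a - (q - a) = p - q := fun a => by ring
    rw [s1, s2, s3] at eA eB
    have eA' : N * ‖z - q‖ ^ 2 * W.re = (‖z - a‖ ^ 2 - r ^ 2) * ‖p - q‖ ^ 2 / 2 := by
      rw [← eA, hkK]
      have : (z - p) * conj (z - q) * ((N : ℂ) * k) =
          ((N * ‖z - q‖ ^ 2 : ℝ) : ℂ) * W := by
        push_cast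
        push_cast at eW
        linear_combination (N : ℂ) * eW
      rw [this, Complex.re_ofReal_mul]
    have eB' : c * N * ‖z - q‖ ^ 2 * W.im = (‖z - b‖ ^ 2 - s ^ 2) * ‖p - q‖ ^ 2 / 2 := by
      rw [← eB]
      have h2 : conj (p - b) = - (Complex.I * (c : ℂ)) * conj (p - a) := by
        rw [hc, map_mul, map_mul, Complex.conj_I, Complex.conj_ofReal]
        ring
      have : (z - p) * conj (z - q) * (conj (p - b) * (p - q)) =
          ((c * N * ‖z - q‖ ^ 2 : ℝ) : ℂ) * (- Complex.I * W) := by
        rw [h2, mul_assoc (-(Complex.I * (c : ℂ))), hkK]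
        push_cast
        push_cast at eW
        linear_combination (-(Complex.I * (c : ℂ)) * (N : ℂ)) * eW
      rw [this, Complex.re_ofReal_mul]
      simp
    constructor
    · rw [mem_pts_iff _ _ _ hr]
      constructor
      · intro h
        rw [h, sub_self, zero_mul, zero_div] at eA'
        rcases mul_eq_zero.1 eA' with h3 | h3
        · exact absurd h3 (by positivity)
        · exact h3
      · intro h
        rw [h, mul_zero] at eA'
        have : ‖z - a‖ ^ 2 - r ^ 2 = 0 := by
          by_contra hne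
          have : (‖z - a‖ ^ 2 - r ^ 2) * ‖p - q‖ ^ 2 / 2 ≠ 0 := by positivity
          exact this eA'.symm
        linarith
    · rw [mem_pts_iff _ _ _ hs]
      constructor
      · intro h
        rw [h, sub_self, zero_mul, zero_div] at eB'
        rcases mul_eq_zero.1 eB' with h3 | h3
        · exact absurd h3 (by positivity)
        · exact h3
      · intro h
        rw [h, mul_zero] at eB'
        have : ‖z - b‖ ^ 2 - s ^ 2 = 0 := by
          by_contra hne
          have : (‖z - b‖ ^ 2 - s ^ 2) * ‖p - q‖ ^ 2 / 2 ≠ 0 := by positivity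
          exact this eB'.symm
        linarith

end Pool.Agent.Q187.OC
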