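import Pool.Agent.Q266.OC.Stm

set_option autoImplicit false

open Metric Set Topology Filter

namespace Pool.Agent.Q187.OC

open Pool.Agent.Q266.OC

theorem t_par : S_Par := by
  intro d hd
  have hdR : (5 : ℝ) ≤ d := by exact_mod_cast hd
  have hd0 : (0 : ℝ) < d := by linarith
  have hpi := Real.pi_pos
  set x : ℝ := Real.pi / d with hx
  have hx0 : 0 < x := by positivity
  have hx5 : x ≤ Real.pi / 5 := div_le_div_of_nonneg_left hpi.le (by norm_num) hdR
  have hc2 : cc d = Real.cos (2 * x) := by
    unfold cc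
    congr 1
    rw [hx]
    ring
  have hcc : cc d = 2 * Real.cos x ^ 2 - 1 := by rw [hc2, Real.cos_two_mul]
  have hcpos : 0 < cc d := by
    rw [hc2]
    apply Real.cos_pos_of_mem_Ioo
    constructor <;> linarith
  have hcx1 : Real.cos x < 1 := by
    have := Real.cos_lt_cos_of_nonneg_of_le_pi (x := 0) (y := x) le_rfl (by linarith) hx0
    rwa [Real.cos_zero] at this
  have hcx2 : 1 / 2 < Real.cos x := by
    have := Real.cos_lt_cos_of_nonneg_of_le_pi (x := x) (y := Real.pi / 3) hx0.le (by linarith)
      (by linarith)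
    rwa [Real.cos_pi_div_three] at this
  have hccx : cc d < Real.cos x := by
    rw [hc2]
    exact Real.cos_lt_cos_of_nonneg_of_le_pi hx0.le (by linarith) (by linarith)
  have hc1 : cc d < 1 := lt_trans hccx hcx1
  have hrr0 : 0 < rr d := by
    unfold rr
    apply Real.sqrt_pos.2
    apply div_pos _ hcpos
    linarith
  have hrho2 : rho d ^ 2 = 1 / cc d := by
    unfold rho
    rw [div_pow, one_pow, Real.sq_sqrt hcpos.le]
  have hrr2 : rr d ^ 2 = 1 / cc d - 1 := by
    unfold rr
    rw [Real.sq_sqrt (by apply (div_pos _ hcpos).le; linarith)]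
    field_simp
  have hsq : √(cc d) < 1 := by
    rw [Real.sqrt_lt' one_pos]
    simpa using hc1
  have hsq0 : 0 < √(cc d) := Real.sqrt_pos.2 hcpos
  have hrho1 : 1 < rho d := by
    unfold rho
    rw [lt_div_iff₀ hsq0]
    linarith
  have hs0 : 0 ≤ Real.cos x ^ 2 - cc d ^ 2 := by nlinarith
  have hlam1 : 1 < lam d := by
    unfold lam
    rw [lt_div_iff₀ hcpos]
    have := Real.sqrt_nonneg (Real.cos (Real.pi / d) ^ 2 - cc d ^ 2)
    rw [← hx] at this ⊢
    linarith
  have hlam2 : lam d ^ 2 + 1 = 2 * Real.cos x / cc d * lam d := by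
    unfold lam
    rw [← hx]
    have e := Real.sq_sqrt hs0
    field_simp
    rw [show (Real.cos x + √(Real.cos x ^ 2 - cc d ^ 2)) ^ 2 =
      Real.cos x ^ 2 + 2 * Real.cos x * √(Real.cos x ^ 2 - cc d ^ 2) +
      √(Real.cos x ^ 2 - cc d ^ 2) ^ 2 by ring, e]
    ring
  have hfin : rho d + rr d < lam d := by
    set u := rho d + rr d with hu
    have hu1 : 1 < u := by linarith
    have hu2 : u ^ 2 + 1 = 2 * rho d * u := by
      have : rr d ^ 2 = rho d ^ 2 - 1 := by rw [hrr2, hrho2]
      rw [hu]
      linear_combination this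
    have hrc : rho d < Real.cos x / cc d := by
      rw [lt_div_iff₀ hcpos]
      have e : rho d * cc d = √(cc d) := by
        unfold rho
        rw [div_mul_eq_mul_div, one_mul, div_eq_iff hsq0.ne', Real.mul_self_sqrt hcpos.le]
      rw [e]
      rw [Real.sqrt_lt' (by linarith)]
      nlinarith
    by_contra hcon
    push Not at hcon
    have h1 : 0 ≤ (u - lam d) * (u * lam d - 1) := by
      apply mul_nonneg (by linarith)
      nlinarith
    have h2 : (u - lam d) * (u * lam d - 1) = lam d * (u ^ 2 + 1) - u * (lam d ^ 2 + 1) := by ring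
    rw [h2, hu2, hlam2] at h1
    have h3 : lam d * (2 * rho d * u) - u * (2 * Real.cos x / cc d * lam d) =
      2 * (lam d * u) * (rho d - Real.cos x / cc d) := by ring
    rw [h3] at h1
    have h4 : 0 < 2 * (lam d * u) := by positivity
    nlinarith
  exact ⟨hcpos, hc1, hcc, hcx2, hcx1, hrr0, hrho2, hrr2, hrho1, hlam1, hlam2, hfin⟩

theorem t_cos : S_Cos := by
  intro d t a hd had hk
  have hpi := Real.pi_pos
  have hdR : (0 : ℝ) < d := by exact_mod_cast hd
  have hd2 : (0 : ℤ) < 2 * d := by exact_mod_cast (by omega : 0 < 2 * d)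
  have main : ∀ r : ℕ, a ≤ r → r ≤ d → Real.cos (Real.pi * r / d) ≤ Real.cos (Real.pi * a / d) := by
    intro r h1 h2
    apply Real.cos_le_cos_of_nonneg_of_le_pi
    · positivity
    · rw [div_le_iff₀ hdR]
      apply mul_le_mul_of_nonneg_left _ hpi.le
      exact_mod_cast h2
    · apply div_le_div_of_nonneg_right _ hdR.le
      apply mul_le_mul_of_nonneg_left _ hpi.le
      exact_mod_cast h1
  have hdiv := Int.mul_ediv_add_emod t (2 * d)
  have hr0 := Int.emod_nonneg t hd2.ne'
  have hr1 := Int.emod_lt_of_pos t hd2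
  set r := t % (2 * d) with hr
  set k := t / (2 * d) with hkk
  by_cases hrd : r ≤ d
  · obtain ⟨n, hn⟩ := Int.eq_ofNat_of_zero_le hr0
    have h1 := hk k
    have e1 : t - 2 * d * k = r := by linarith
    rw [e1, abs_of_nonneg hr0, hn] at h1
    have h2 : a ≤ n := by exact_mod_cast h1
    have h3 : n ≤ d := by rw [hn] at hrd; exact_mod_cast hrd
    have e2 : Real.pi * t / d = Real.pi * n / d + k * (2 * Real.pi) := by
      have : (t : ℝ) = n + 2 * d * k := by
        have h5 : t = n + 2 * d * k := by linarith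
        exact_mod_cast h5
      rw [this]
      field_simp
    rw [e2, Real.cos_add_int_mul_two_pi]
    exact main n h2 h3
  · push Not at hrd
    have hr2 : 0 ≤ 2 * d - r := by linarith
    obtain ⟨n, hn⟩ := Int.eq_ofNat_of_zero_le hr2
    have h1 := hk (k + 1)
    have e1 : t - 2 * d * (k + 1) = - (2 * d - r) := by linarith
    rw [e1, abs_neg, abs_of_nonneg hr2, hn] at h1
    have h2 : a ≤ n := by exact_mod_cast h1
    have h3 : n ≤ d := by
      have : (n : ℤ) ≤ d := by rw [← hn]; linarith
      exact_mod_cast this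
    have e2 : Real.pi * t / d = - (Real.pi * n / d) + ((k + 1 : ℤ) : ℝ) * (2 * Real.pi) := by
      have : (t : ℝ) = - n + 2 * d * (k + 1) := by
        have h5 : t = - n + 2 * d * (k + 1) := by
          rw [← hn]
          linarith
        exact_mod_cast h5
      rw [this]
      push_cast
      field_simp
    rw [e2, Real.cos_add_int_mul_two_pi, Real.cos_neg]
    exact main n h2 h3

end Pool.Agent.Q187.OC
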