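import Pool.Agent.Q187.OC.GLOB
import Pool.Agent.Q187.OC.PAR

set_option autoImplicit false

open Metric Set Topology Filter

namespace Pool.Agent.Q187.OC

open Pool.Agent.Q266.OC

/-- labels of the circles -/
abbrev Lab := ℕ ⊕ (ℕ × ℕ)

noncomputable def phi (d : ℕ) : Lab → ℂ × ℝ
  | Sum.inl k => conc d k
  | Sum.inr (j, i) => ring d j i

/-- labels in range -/
def InR (d K M : ℕ) : Lab → Prop
  | Sum.inl k => k < M
  | Sum.inr (j, i) => j < K ∧ i < d

def E1 (d K : ℕ) : Finset (Lab × Lab) :=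
  (Finset.range K ×ˢ Finset.range d).image (fun x => (Sum.inl x.1, Sum.inr (x.1, x.2)))

def E2 (d K : ℕ) : Finset (Lab × Lab) :=
  (Finset.range K ×ˢ Finset.range d).image
    (fun x => (Sum.inr (x.1, x.2), Sum.inr (x.1, (x.2 + 1) % d)))

def E3 (d K : ℕ) : Finset (Lab × Lab) :=
  (Finset.range (K - 1) ×ˢ Finset.range d).image
    (fun x => (Sum.inr (x.1, x.2), Sum.inr (x.1 + 1, x.2)))

def E4 (d K : ℕ) : Finset (Lab × Lab) :=
  (Finset.range (K - 1) ×ˢ Finset.range d).image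
    (fun x => (Sum.inr (x.1, x.2), Sum.inr (x.1 + 1, (x.2 + d - 1) % d)))

theorem mod_succ (d i : ℕ) (hd : 5 ≤ d) (hi : i < d) :
    ((i + 1) % d = i + 1 ∧ i + 1 < d) ∨ (i = d - 1 ∧ (i + 1) % d = 0) := by
  rcases Nat.lt_or_ge (i + 1) d with h | h
  · left; exact ⟨Nat.mod_eq_of_lt h, h⟩
  · right
    have : i + 1 = d := by omega
    exact ⟨by omega, by rw [this, Nat.mod_self]⟩

theorem mod_pred (d i : ℕ) (hd : 5 ≤ d) (hi : i < d) :
    (i = (i + d - 1) % d + 1) ∨ (i = 0 ∧ (i + d - 1) % d = d - 1) := by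
  rcases Nat.eq_zero_or_pos i with h | h
  · right
    refine ⟨h, ?_⟩
    rw [h, zero_add]
    exact Nat.mod_eq_of_lt (by omega)
  · left
    have e : i + d - 1 = (i - 1) + d := by omega
    rw [e, Nat.add_mod_right, Nat.mod_eq_of_lt (by omega)]
    omega

theorem mem_J (d K : ℕ) (a b : Lab) (h : (a, b) ∈ E1 d K ∪ E2 d K ∪ E3 d K ∪ E4 d K) :
    (∃ j i, j < K ∧ i < d ∧ a = Sum.inl j ∧ b = Sum.inr (j, i)) ∨
    (∃ j i, j < K ∧ i < d ∧ a = Sum.inr (j, i) ∧ b = Sum.inr (j, (i + 1) % d)) ∨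
    (∃ j i, j + 1 < K ∧ i < d ∧ a = Sum.inr (j, i) ∧ b = Sum.inr (j + 1, i)) ∨
    (∃ j i, j + 1 < K ∧ i < d ∧ a = Sum.inr (j, i) ∧ b = Sum.inr (j + 1, (i + d - 1) % d)) := by
  simp only [Finset.mem_union] at h
  rcases h with ((h | h) | h) | h
  · left
    obtain ⟨⟨j, i⟩, hx, he⟩ := Finset.mem_image.1 h
    simp only [Finset.mem_product, Finset.mem_range] at hx
    obtain ⟨h1, h2⟩ := Prod.mk.inj he
    exact ⟨j, i, hx.1, hx.2, h1.symm, h2.symm⟩
  · right; left
    obtain ⟨⟨j, i⟩, hx, he⟩ := Finset.mem_image.1 h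
    simp only [Finset.mem_product, Finset.mem_range] at hx
    obtain ⟨h1, h2⟩ := Prod.mk.inj he
    exact ⟨j, i, hx.1, hx.2, h1.symm, h2.symm⟩
  · right; right; left
    obtain ⟨⟨j, i⟩, hx, he⟩ := Finset.mem_image.1 h
    simp only [Finset.mem_product, Finset.mem_range] at hx
    obtain ⟨h1, h2⟩ := Prod.mk.inj he
    exact ⟨j, i, by omega, hx.2, h1.symm, h2.symm⟩
  · right; right; right
    obtain ⟨⟨j, i⟩, hx, he⟩ := Finset.mem_image.1 h
    simp only [Finset.mem_product, Finset.mem_range] at hx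
    obtain ⟨h1, h2⟩ := Prod.mk.inj he
    exact ⟨j, i, by omega, hx.2, h1.symm, h2.symm⟩

theorem card_J (d K : ℕ) (hd : 5 ≤ d) (hK : 1 ≤ K) :
    (E1 d K ∪ E2 d K ∪ E3 d K ∪ E4 d K).card + 2 * d = 4 * K * d := by
  have c1 : (E1 d K).card = K * d := by
    unfold E1
    rw [Finset.card_image_of_injective, Finset.card_product, Finset.card_range, Finset.card_range]
    rintro ⟨j, i⟩ ⟨j', i'⟩ h
    simp only [Prod.mk.injEq, Sum.inl.injEq, Sum.inr.injEq] at h
    exact Prod.ext h.1 h.2.2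
  have c2 : (E2 d K).card = K * d := by
    unfold E2
    rw [Finset.card_image_of_injective, Finset.card_product, Finset.card_range, Finset.card_range]
    rintro ⟨j, i⟩ ⟨j', i'⟩ h
    simp only [Prod.mk.injEq, Sum.inr.injEq] at h
    exact Prod.ext h.1.1 h.1.2
  have c3 : (E3 d K).card = (K - 1) * d := by
    unfold E3
    rw [Finset.card_image_of_injective, Finset.card_product, Finset.card_range, Finset.card_range]
    rintro ⟨j, i⟩ ⟨j', i'⟩ h
    simp only [Prod.mk.injEq, Sum.inr.injEq] at h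
    exact Prod.ext h.1.1 h.1.2
  have c4 : (E4 d K).card = (K - 1) * d := by
    unfold E4
    rw [Finset.card_image_of_injective, Finset.card_product, Finset.card_range, Finset.card_range]
    rintro ⟨j, i⟩ ⟨j', i'⟩ h
    simp only [Prod.mk.injEq, Sum.inr.injEq] at h
    exact Prod.ext h.1.1 h.1.2
  have d12 : Disjoint (E1 d K) (E2 d K) := by
    rw [Finset.disjoint_left]
    intro x h1 h2
    obtain ⟨⟨j, i⟩, hx, he⟩ := Finset.mem_image.1 h1
    obtain ⟨⟨j', i'⟩, hx', he'⟩ := Finset.mem_image.1 h2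
    rw [← he] at he'
    simp at he'
  have d3 : Disjoint (E1 d K ∪ E2 d K) (E3 d K) := by
    rw [Finset.disjoint_left]
    intro x h1 h2
    obtain ⟨⟨j', i'⟩, hx', he'⟩ := Finset.mem_image.1 h2
    rcases Finset.mem_union.1 h1 with h1 | h1
    · obtain ⟨⟨j, i⟩, hx, he⟩ := Finset.mem_image.1 h1
      rw [← he] at he'
      simp at he'
    · obtain ⟨⟨j, i⟩, hx, he⟩ := Finset.mem_image.1 h1
      rw [← he] at he'
      simp only [Prod.mk.injEq, Sum.inr.injEq] at he'
      omega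
  have d4 : Disjoint (E1 d K ∪ E2 d K ∪ E3 d K) (E4 d K) := by
    rw [Finset.disjoint_left]
    intro x h1 h2
    obtain ⟨⟨j', i'⟩, hx', he'⟩ := Finset.mem_image.1 h2
    rcases Finset.mem_union.1 h1 with h1 | h1
    · rcases Finset.mem_union.1 h1 with h1 | h1
      · obtain ⟨⟨j, i⟩, hx, he⟩ := Finset.mem_image.1 h1
        rw [← he] at he'
        simp at he'
      · obtain ⟨⟨j, i⟩, hx, he⟩ := Finset.mem_image.1 h1
        rw [← he] at he'
        simp only [Prod.mk.injEq, Sum.inr.injEq] at he'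
        omega
    · obtain ⟨⟨j, i⟩, hx, he⟩ := Finset.mem_image.1 h1
      rw [← he] at he'
      simp only [Prod.mk.injEq, Sum.inr.injEq] at he'
      simp only [Finset.mem_product, Finset.mem_range] at hx hx'
      have := mod_pred d i' hd hx'.2
      omega
  rw [Finset.card_union_of_disjoint d4, Finset.card_union_of_disjoint d3,
    Finset.card_union_of_disjoint d12, c1, c2, c3, c4]
  obtain ⟨k, rfl⟩ := Nat.exists_eq_add_of_le hK
  have : 1 + k - 1 = k := by omega
  rw [this]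
  ring

theorem t_base (hR : S_Ring) (hC : S_Conc) : S_Base := by
  classical
  intro d K M hd hK hKM
  obtain ⟨c0, c1, c2, x1, x2, rr0, rho2, rr2, rho1, lam1, lam2, hlr⟩ := t_par d hd
  have lam0 : 0 < lam d := by linarith
  have hinj : ∀ a b : Lab, InR d K M a → InR d K M b → phi d a = phi d b → a = b := by
    rintro (k | ⟨j, i⟩) (l | ⟨j', i'⟩) ha hb h
    · have := (hC d hd k 0 0 l).2.2.2.1 h
      rw [this]
    · exact absurd h (hC d hd k j' i' 0).2.2.2.2
    · exact absurd h.symm (hC d hd l j i 0).2.2.2.2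
    · obtain ⟨h1, h2⟩ := (hR d hd j i j' i' ha.2 hb.2).2.2.2 h
      rw [h1, h2]
  have hpair : ∀ a b : Lab, InR d K M a → InR d K M b → a ≠ b →
      Disjoint (pts (phi d a)) (pts (phi d b)) ∨ Orth (phi d a) (phi d b) := by
    rintro (k | ⟨j, i⟩) (l | ⟨j', i'⟩) ha hb h
    · left
      exact (hC d hd k 0 0 l).2.2.1 (fun h' => h (by rw [h']))
    · by_cases hk : k = j'
      · right
        rw [hk]
        exact (hC d hd 0 j' i' 0).1
      · left
        exact (hC d hd k j' i' 0).2.1 hk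
    · by_cases hk : l = j
      · right
        rw [hk]
        exact orth_symm _ _ (hC d hd 0 j i 0).1
      · left
        exact ((hC d hd l j i 0).2.1 hk).symm
    · exact (hR d hd j i j' i' ha.2 hb.2).2.2.1 (fun h' => h (by rw [h']))
  let A : Finset (ℂ × ℝ) :=
    ((Finset.range M).disjSum (Finset.range K ×ˢ Finset.range d)).image (phi d)
  have hImem : ∀ a : Lab, a ∈ (Finset.range M).disjSum (Finset.range K ×ˢ Finset.range d) ↔
      InR d K M a := by
    rintro (k | ⟨j, i⟩)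
    · rw [Finset.inl_mem_disjSum, Finset.mem_range]
      rfl
    · rw [Finset.inr_mem_disjSum, Finset.mem_product, Finset.mem_range, Finset.mem_range]
      rfl
  have hAmem : ∀ S, S ∈ A ↔ ∃ a, InR d K M a ∧ phi d a = S := by
    intro S
    simp only [A, Finset.mem_image]
    constructor
    · rintro ⟨a, ha, h⟩
      exact ⟨a, (hImem a).1 ha, h⟩
    · rintro ⟨a, ha, h⟩
      exact ⟨a, (hImem a).2 ha, h⟩
  refine ⟨A, ⟨?_, ?_⟩, ?_, ?_⟩
  · intro S hS
    obtain ⟨a, ha, rfl⟩ := (hAmem S).1 hS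
    rcases a with k | ⟨j, i⟩
    · show 0 < lam d ^ k
      positivity
    · show 0 < lam d ^ j * rr d
      positivity
  · intro S hS T hT hST
    obtain ⟨a, ha, rfl⟩ := (hAmem S).1 hS
    obtain ⟨b, hb, rfl⟩ := (hAmem T).1 hT
    exact hpair a b ha hb (fun h => hST (by rw [h]))
  · rw [Finset.card_image_of_injOn, Finset.card_disjSum, Finset.card_product, Finset.card_range,
      Finset.card_range, Finset.card_range]
    intro a ha b hb h
    exact hinj a b ((hImem a).1 ha) ((hImem b).1 hb) h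
  · let J := E1 d K ∪ E2 d K ∪ E3 d K ∪ E4 d K
    have hJin : ∀ a b, (a, b) ∈ J → InR d K M a ∧ InR d K M b := by
      intro a b h
      rcases mem_J d K a b h with ⟨j, i, hj, hi, rfl, rfl⟩ | ⟨j, i, hj, hi, rfl, rfl⟩ |
        ⟨j, i, hj, hi, rfl, rfl⟩ | ⟨j, i, hj, hi, rfl, rfl⟩
      · exact ⟨lt_of_lt_of_le hj hKM, hj, hi⟩
      · exact ⟨⟨hj, hi⟩, hj, Nat.mod_lt _ (by omega)⟩
      · exact ⟨⟨by omega, hi⟩, hj, hi⟩
      · exact ⟨⟨by omega, hi⟩, hj, Nat.mod_lt _ (by omega)⟩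
    have hJo : ∀ a b, (a, b) ∈ J → Orth (phi d a) (phi d b) := by
      intro a b h
      rcases mem_J d K a b h with ⟨j, i, hj, hi, rfl, rfl⟩ | ⟨j, i, hj, hi, rfl, rfl⟩ |
        ⟨j, i, hj, hi, rfl, rfl⟩ | ⟨j, i, hj, hi, rfl, rfl⟩
      · exact (hC d hd 0 j i 0).1
      · refine (hR d hd j i j ((i + 1) % d) hi (Nat.mod_lt _ (by omega))).1 rfl ?_
        rcases mod_succ d i hd hi with h1 | h1
        · exact Or.inl h1.1
        · exact Or.inr h1
      · exact (hR d hd j i (j + 1) i hi hi).2.1 rfl (Or.inl rfl)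
      · refine (hR d hd j i (j + 1) ((i + d - 1) % d) hi (Nat.mod_lt _ (by omega))).2.1 rfl ?_
        exact Or.inr (mod_pred d i hd hi)
    have hJne : ∀ a b, (a, b) ∈ J → a ≠ b := by
      intro a b h
      rcases mem_J d K a b h with ⟨j, i, hj, hi, rfl, rfl⟩ | ⟨j, i, hj, hi, rfl, rfl⟩ |
        ⟨j, i, hj, hi, rfl, rfl⟩ | ⟨j, i, hj, hi, rfl, rfl⟩
      · simp
      · have := mod_succ d i hd hi
        intro he
        simp only [Sum.inr.injEq, Prod.mk.injEq] at he
        omega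
      · intro he
        simp at he
      · intro he
        simp at he
    have hJa : ∀ a b, (a, b) ∈ J → (b, a) ∉ J := by
      intro a b h h'
      rcases mem_J d K a b h with ⟨j, i, hj, hi, h1, h2⟩ | ⟨j, i, hj, hi, h1, h2⟩ |
        ⟨j, i, hj, hi, h1, h2⟩ | ⟨j, i, hj, hi, h1, h2⟩ <;>
      rcases mem_J d K b a h' with ⟨j', i', hj', hi', h1', h2'⟩ | ⟨j', i', hj', hi', h1', h2'⟩ |
        ⟨j', i', hj', hi', h1', h2'⟩ | ⟨j', i', hj', hi', h1', h2'⟩ <;>
      rw [h1] at h2' <;> rw [h2] at h1' <;>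
      simp only [Sum.inr.injEq, Prod.mk.injEq, reduceCtorEq] at h1' h2' <;>
      have m1 := mod_succ d i hd hi <;>
      have m2 := mod_succ d i' hd hi' <;> omega
    refine ⟨J.image (Prod.map (phi d) (phi d)), ?_, ?_⟩
    · rw [Finset.card_image_of_injOn]
      · exact card_J d K hd hK
      · rintro ⟨a, b⟩ h ⟨a', b'⟩ h' he
        have g := hJin a b h
        have g' := hJin a' b' h'
        obtain ⟨e1, e2⟩ := Prod.mk.inj he
        exact Prod.ext (hinj _ _ g.1 g'.1 e1) (hinj _ _ g.2 g'.2 e2)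
    · intro e he
      obtain ⟨⟨a, b⟩, h, rfl⟩ := Finset.mem_image.1 he
      have g := hJin a b h
      refine ⟨(hAmem _).2 ⟨a, g.1, rfl⟩, (hAmem _).2 ⟨b, g.2, rfl⟩, ?_, hJo a b h, ?_⟩
      · intro h'
        exact hJne a b h (hinj _ _ g.1 g.2 h')
      · intro h'
        obtain ⟨⟨a', b'⟩, h2, he2⟩ := Finset.mem_image.1 h'
        have g' := hJin a' b' h2
        obtain ⟨e1, e2⟩ := Prod.mk.inj he2
        have e3 : a' = b := hinj _ _ g'.1 g.2 e1
        have e4 : b' = a := hinj _ _ g'.2 g.1 e2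
        rw [e3, e4] at h2
        exact hJa a b h h2

end Pool.Agent.Q187.OC
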