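import Pool.Agent.Q266.OC.Stm

set_option autoImplicit false

open Metric Set

namespace Pool.Agent.Q187.OC

open Pool.Agent.Q266.OC

theorem Gm_sub_q (k p q w : ℂ) (h : k - w ≠ 0) : Gm k p q w - q = k * (p - q) / (k - w) := by
  unfold Gm
  field_simp
  ring

theorem Gm_sub_p (k p q w : ℂ) (h : k - w ≠ 0) : Gm k p q w - p = w * (p - q) / (k - w) := by
  unfold Gm
  field_simp
  ring

theorem k_sub_ne (k w : ℂ) (t : ℝ) (hk : ‖k‖ = 1) (ht : t < 1) (hw : ‖w‖ ≤ t) : k - w ≠ 0 := by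
  intro h
  have : k = w := sub_eq_zero.1 h
  rw [this] at hk
  linarith

theorem Gm_Wm (k p q z : ℂ) (hk : k ≠ 0) (hpq : p ≠ q) (hz : z ≠ q) :
    Gm k p q (Wm k p q z) = z := by
  have h1 : z - q ≠ 0 := sub_ne_zero.2 hz
  have h2 : p - q ≠ 0 := sub_ne_zero.2 hpq
  have h3 : k - Wm k p q z = k * (p - q) / (z - q) := by
    unfold Wm
    field_simp
    ring
  have h4 : k * p - Wm k p q z * q = k * (p - q) * z / (z - q) := by
    unfold Wm
    field_simp
    ring
  unfold Gm
  rw [h3, h4]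
  field_simp

theorem t_chart : S_Chart := by
  intro k p q t hk hpq ht0 ht1
  have hk0 : k ≠ 0 := by
    intro h
    rw [h, norm_zero] at hk
    exact zero_ne_one hk
  have hpq' : p - q ≠ 0 := sub_ne_zero.2 hpq
  have hG : ∀ w, ‖w‖ ≤ t → Gm k p q w ≠ q ∧ Wm k p q (Gm k p q w) = w ∧
      ‖Gm k p q w - p‖ = ‖w‖ * ‖Gm k p q w - q‖ := by
    intro w hw
    have hkw := k_sub_ne k w t hk ht1 hw
    have e1 := Gm_sub_q k p q w hkw
    have e2 := Gm_sub_p k p q w hkw
    refine ⟨?_, ?_, ?_⟩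
    · rw [← sub_ne_zero, e1]
      exact div_ne_zero (mul_ne_zero hk0 hpq') hkw
    · unfold Wm
      rw [e1, e2]
      field_simp
    · rw [e1, e2, norm_div, norm_mul, norm_div, norm_mul, hk]
      ring
  have hWc : ContinuousOn (Wm k p q) {z | z ≠ q} := by
    unfold Wm
    apply ContinuousOn.div
    · fun_prop
    · fun_prop
    · intro z hz
      exact sub_ne_zero.2 hz
  refine ⟨?_, hWc, hG, ?_, ?_⟩
  · unfold Gm
    apply ContinuousOn.div
    · fun_prop
    · fun_prop
    · intro w hw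
      rw [mem_closedBall, dist_zero_right] at hw
      exact k_sub_ne k w t hk ht1 hw
  · intro z hz hzt
    refine ⟨?_, Gm_Wm k p q z hk0 hpq hz⟩
    unfold Wm
    rw [norm_div, norm_mul, hk, one_mul, div_le_iff₀ (norm_pos_iff.2 (sub_ne_zero.2 hz))]
    exact hzt
  · intro O hO hOt
    have e : Gm k p q '' O = {z | z ≠ q} ∩ Wm k p q ⁻¹' O := by
      ext z
      constructor
      · rintro ⟨w, hw, rfl⟩
        have hwt : ‖w‖ ≤ t := by
          have := hOt hw
          rw [mem_ball, dist_zero_right] at this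
          exact this.le
        obtain ⟨a, b, c⟩ := hG w hwt
        refine ⟨a, ?_⟩
        show Wm k p q (Gm k p q w) ∈ O
        rw [b]
        exact hw
      · rintro ⟨hz, hzO⟩
        exact ⟨Wm k p q z, hzO, Gm_Wm k p q z hk0 hpq hz⟩
    rw [e]
    exact hWc.isOpen_inter_preimage isOpen_ne hO

end Pool.Agent.Q187.OC
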