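import Pool.Agent.Q266.OC.Stm

set_option autoImplicit false

open Metric Set

namespace Pool.Agent.Q187.OC

open Pool.Agent.Q266.OC

theorem t_cnt (hT : S_Three) : S_Cnt := by
  classical
  intro A hA E hE
  have hfin : ∀ e ∈ E, (pts e.1 ∩ pts e.2).Finite := by
    intro e he
    obtain ⟨-, -, -, ho, -⟩ := hE e he
    exact Set.finite_of_ncard_ne_zero (by rw [ho.1]; norm_num)
  let f : (ℂ × ℝ) × (ℂ × ℝ) → Finset ℂ := fun e =>
    if h : (pts e.1 ∩ pts e.2).Finite then h.toFinset else ∅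
  have hf : ∀ e ∈ E, ∀ z, z ∈ f e ↔ z ∈ pts e.1 ∧ z ∈ pts e.2 := by
    intro e he z
    simp only [f, dif_pos (hfin e he), Set.Finite.mem_toFinset, Set.mem_inter_iff]
  have hcard : ∀ e ∈ E, (f e).card = 2 := by
    intro e he
    obtain ⟨-, -, -, ho, -⟩ := hE e he
    simp only [f, dif_pos (hfin e he)]
    rw [← Set.ncard_eq_toFinset_card _ (hfin e he)]
    exact ho.1
  refine ⟨E.biUnion f, ?_, ?_⟩
  · intro z hz
    rw [Finset.coe_biUnion, Set.mem_iUnion₂] at hz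
    obtain ⟨e, he, hz⟩ := hz
    have hz' := (hf e he z).1 hz
    obtain ⟨h1, h2, h3, -, -⟩ := hE e he
    exact ⟨e.1, h1, e.2, h2, h3, hz'.1, hz'.2⟩
  · rw [Finset.card_biUnion, Finset.sum_congr rfl hcard, Finset.sum_const, smul_eq_mul, mul_comm]
    intro e he e' he' hne
    show Disjoint (f e) (f e')
    rw [Finset.disjoint_left]
    intro z hz hz'
    have a := (hf e he z).1 hz
    have b := (hf e' he' z).1 hz'
    obtain ⟨h1, h2, h3, -, h5⟩ := hE e he
    obtain ⟨g1, g2, g3, -, -⟩ := hE e' he'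
    have k1 : e'.1 = e.1 ∨ e'.1 = e.2 := by
      by_contra hc
      push Not at hc
      exact hT A hA e.1 h1 e.2 h2 e'.1 g1 h3 (Ne.symm hc.1) (Ne.symm hc.2) z ⟨a.1, a.2, b.1⟩
    have k2 : e'.2 = e.1 ∨ e'.2 = e.2 := by
      by_contra hc
      push Not at hc
      exact hT A hA e.1 h1 e.2 h2 e'.2 g2 h3 (Ne.symm hc.1) (Ne.symm hc.2) z ⟨a.1, a.2, b.2⟩
    rcases k1 with k1 | k1 <;> rcases k2 with k2 | k2
    · exact g3 (k1.trans k2.symm)
    · exact hne (Prod.ext k1.symm k2.symm)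
    · apply h5
      rw [← k1, ← k2]
      exact he'
    · exact g3 (k1.trans k2.symm)

end Pool.Agent.Q187.OC
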