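import Pool.Agent.Q266.OC.Stm

set_option autoImplicit false

open Metric Set Topology Filter

namespace Pool.Agent.Q187.OC

open Pool.Agent.Q266.OC

/-- a criterion for a component -/
theorem comp_eq (Y E O : Set ℂ) (hE : IsPreconnected E) (hEY : E ⊆ Y) (hO : IsOpen O)
    (hEO : E ⊆ O) (h1 : Y ∩ O ⊆ E) (h2 : Y ∩ closure E ⊆ E) (z : ℂ) (hz : z ∈ E) :
    connectedComponentIn Y z = E := by
  apply Subset.antisymm
  · have hC : IsPreconnected (connectedComponentIn Y z) := isPreconnected_connectedComponentIn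
    have hCY : connectedComponentIn Y z ⊆ Y := connectedComponentIn_subset Y z
    have hzC : z ∈ connectedComponentIn Y z := mem_connectedComponentIn (hEY hz)
    by_contra hcon
    have hne : (connectedComponentIn Y z ∩ (closure E)ᶜ).Nonempty := by
      by_contra hem
      apply hcon
      intro x hx
      by_cases hxE : x ∈ closure E
      · exact h2 ⟨hCY hx, hxE⟩
      · exact absurd ⟨x, hx, hxE⟩ hem
    obtain ⟨x, hxC, hxO, hxE⟩ := hC O (closure E)ᶜ hO isClosed_closure.isOpen_compl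
      (by
        intro x hx
        by_cases hxE : x ∈ closure E
        · exact Or.inl (hEO (h2 ⟨hCY hx, hxE⟩))
        · exact Or.inr hxE) ⟨z, hzC, hEO hz⟩ hne
    exact hxE (subset_closure (h1 ⟨hCY hxC, hxO⟩))
  · exact hE.subset_connectedComponentIn hz hEY

theorem clos_image {X : Type*} [TopologicalSpace X] (f : X → ℂ) (s : Set X)
    (hs : IsCompact (closure s)) (hf : ContinuousOn f (closure s)) :
    closure (f '' s) = f '' closure s := by
  apply Subset.antisymm
  · exact closure_minimal (image_mono subset_closure) (hs.image_of_continuousOn hf).isClosed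
  · exact hf.image_closure

theorem sign_sq (σ : ℝ) (h : σ = 1 ∨ σ = -1) : σ * σ = 1 := by
  rcases h with rfl | rfl <;> norm_num

theorem isOpen_Qd (t σ τ : ℝ) : IsOpen (Qd t σ τ) := by
  apply IsOpen.inter
  · exact isOpen_lt continuous_norm continuous_const
  · apply IsOpen.inter
    · exact isOpen_lt continuous_const (continuous_const.mul Complex.continuous_re)
    · exact isOpen_lt continuous_const (continuous_const.mul Complex.continuous_im)

theorem convex_Qd (t σ τ : ℝ) : Convex ℝ (Qd t σ τ) := by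
  intro x hx y hy a b ha hb hab
  obtain ⟨h1, h2, h3⟩ := hx
  obtain ⟨g1, g2, g3⟩ := hy
  refine ⟨?_, ?_, ?_⟩
  · have hball := convex_ball (0 : ℂ) t (mem_ball_zero_iff.2 h1) (mem_ball_zero_iff.2 g1) ha hb hab
    exact mem_ball_zero_iff.1 hball
  · have e : σ * (a • x + b • y).re = a * (σ * x.re) + b * (σ * y.re) := by
      simp; ring
    rw [e]
    rcases eq_or_lt_of_le ha with h | h
    · have : b = 1 := by linarith
      rw [← h, this]; simpa using g2
    · have := mul_pos h h2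
      have := mul_nonneg hb g2.le
      linarith
  · have e : τ * (a • x + b • y).im = a * (τ * x.im) + b * (τ * y.im) := by
      simp; ring
    rw [e]
    rcases eq_or_lt_of_le ha with h | h
    · have : b = 1 := by linarith
      rw [← h, this]; simpa using g3
    · have := mul_pos h h3
      have := mul_nonneg hb g3.le
      linarith

/-- the closed quarter disc -/
def Qc (t σ τ : ℝ) : Set ℂ := {w | ‖w‖ ≤ t ∧ 0 ≤ σ * w.re ∧ 0 ≤ τ * w.im}

theorem closure_Qd (t σ τ : ℝ) (ht : 0 < t) (hσ : σ = 1 ∨ σ = -1) (hτ : τ = 1 ∨ τ = -1) :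
    closure (Qd t σ τ) = Qc t σ τ := by
  apply Subset.antisymm
  · apply closure_minimal
    · rintro w ⟨h1, h2, h3⟩
      exact ⟨h1.le, h2.le, h3.le⟩
    · apply IsClosed.inter
      · exact isClosed_le continuous_norm continuous_const
      · apply IsClosed.inter
        · exact isClosed_le continuous_const (continuous_const.mul Complex.continuous_re)
        · exact isClosed_le continuous_const (continuous_const.mul Complex.continuous_im)
  · rintro w ⟨h1, h2, h3⟩
    have hs := sign_sq σ hσ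
    have ht' := sign_sq τ hτ
    let w0 : ℂ := ⟨σ * (t / 4), τ * (t / 4)⟩
    have hw0 : ‖w0‖ < t := by
      have h : ‖w0‖ ^ 2 < t ^ 2 := by
        rw [Complex.sq_norm, Complex.normSq_apply]
        simp only [w0]
        have : σ * (t / 4) * (σ * (t / 4)) + τ * (t / 4) * (τ * (t / 4)) =
          (σ * σ) * (t / 4) ^ 2 + (τ * τ) * (t / 4) ^ 2 := by ring
        rw [this, hs, ht']
        nlinarith [mul_pos ht ht]
      exact lt_of_pow_lt_pow_left₀ 2 ht.le h
    have hlim : Tendsto (fun ε : ℝ => w + (ε : ℂ) * (w0 - w)) (𝓝[>] 0) (𝓝 w) := by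
      have hc : Continuous (fun ε : ℝ => w + (ε : ℂ) * (w0 - w)) := by fun_prop
      have := hc.tendsto 0
      simp only [Complex.ofReal_zero, zero_mul, add_zero] at this
      exact this.mono_left nhdsWithin_le_nhds
    apply mem_closure_of_tendsto hlim
    have hev : ∀ᶠ ε : ℝ in 𝓝[>] 0, ε ∈ Ioo (0 : ℝ) 1 := Ioo_mem_nhdsGT one_pos
    filter_upwards [hev] with ε hε
    obtain ⟨e0, e1⟩ := hε
    refine ⟨?_, ?_, ?_⟩
    · have e : w + (ε : ℂ) * (w0 - w) = ((1 - ε : ℝ) : ℂ) * w + (ε : ℂ) * w0 := by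
        push_cast; ring
      rw [e]
      calc ‖((1 - ε : ℝ) : ℂ) * w + (ε : ℂ) * w0‖ ≤ ‖((1 - ε : ℝ) : ℂ) * w‖ + ‖(ε : ℂ) * w0‖ :=
            norm_add_le _ _
        _ = (1 - ε) * ‖w‖ + ε * ‖w0‖ := by
            rw [norm_mul, norm_mul, Complex.norm_real, Complex.norm_real, Real.norm_eq_abs,
              Real.norm_eq_abs, abs_of_pos (by linarith : (0 : ℝ) < 1 - ε), abs_of_pos e0]
        _ < t := by
            have a1 : (1 - ε) * ‖w‖ ≤ (1 - ε) * t := mul_le_mul_of_nonneg_left h1 (by linarith)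
            have a2 : ε * ‖w0‖ < ε * t := mul_lt_mul_of_pos_left hw0 e0
            linarith
    · have e : σ * (w + (ε : ℂ) * (w0 - w)).re = (1 - ε) * (σ * w.re) + ε * ((σ * σ) * (t / 4)) := by
        simp [w0]; ring
      rw [e, hs]
      have : 0 ≤ (1 - ε) * (σ * w.re) := mul_nonneg (by linarith) h2
      have : 0 < ε * (1 * (t / 4)) := by positivity
      linarith
    · have e : τ * (w + (ε : ℂ) * (w0 - w)).im = (1 - ε) * (τ * w.im) + ε * ((τ * τ) * (t / 4)) := by
        simp [w0]; ring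
      rw [e, ht']
      have : 0 ≤ (1 - ε) * (τ * w.im) := mul_nonneg (by linarith) h3
      have : 0 < ε * (1 * (t / 4)) := by positivity
      linarith

theorem compact_Qc (t σ τ : ℝ) : IsCompact (Qc t σ τ) := by
  apply (isCompact_closedBall (0 : ℂ) t).of_isClosed_subset
  · apply IsClosed.inter
    · exact isClosed_le continuous_norm continuous_const
    · apply IsClosed.inter
      · exact isClosed_le continuous_const (continuous_const.mul Complex.continuous_re)
      · exact isClosed_le continuous_const (continuous_const.mul Complex.continuous_im)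
  · rintro w ⟨h1, -, -⟩
    exact mem_closedBall_zero_iff.2 h1

theorem sign_ne (σ x : ℝ) (hσ : σ = 1 ∨ σ = -1) (h0 : 0 ≤ σ * x) : 0 < σ * x ↔ x ≠ 0 := by
  constructor
  · intro h hx
    rw [hx, mul_zero] at h
    exact lt_irrefl _ h
  · intro hx
    have hσ0 : σ ≠ 0 := by rcases hσ with rfl | rfl <;> norm_num
    exact lt_of_le_of_ne h0 (mul_ne_zero hσ0 hx).symm

theorem t_face (hC : S_Chart) : S_Face := by
  intro k p q t hk hpq ht0 ht1 U hU σ τ hσ hτ
  obtain ⟨hGc, hWc, hG, hW, hop⟩ := hC k p q t hk hpq ht0 ht1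
  have hQsub : Qd t σ τ ⊆ ball 0 t := fun w hw => mem_ball_zero_iff.2 hw.1
  have hQc : Qc t σ τ ⊆ closedBall 0 t := fun w hw => mem_closedBall_zero_iff.2 hw.1
  have hcl := closure_Qd t σ τ ht0 hσ hτ
  have hclim : closure (Gm k p q '' Qd t σ τ) = Gm k p q '' Qc t σ τ := by
    rw [clos_image _ _ (by rw [hcl]; exact compact_Qc t σ τ)
      (by rw [hcl]; exact hGc.mono hQc), hcl]
  have hopen : IsOpen (Gm k p q '' Qd t σ τ) := hop _ (isOpen_Qd t σ τ) hQsub
  have hQdne : ∀ w ∈ Qd t σ τ, ¬ (w.re = 0 ∨ w.im = 0 ∨ ‖w‖ = t) := by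
    rintro w ⟨h1, h2, h3⟩ (h | h | h)
    · rw [h, mul_zero] at h2; exact lt_irrefl _ h2
    · rw [h, mul_zero] at h3; exact lt_irrefl _ h3
    · rw [h] at h1; exact lt_irrefl _ h1
  have hQcd : ∀ w ∈ Qc t σ τ, ¬ (w.re = 0 ∨ w.im = 0 ∨ ‖w‖ = t) → w ∈ Qd t σ τ := by
    rintro w ⟨h1, h2, h3⟩ h
    push Not at h
    exact ⟨lt_of_le_of_ne h1 h.2.2, (sign_ne σ _ hσ h2).2 h.1, (sign_ne τ _ hτ h3).2 h.2.1⟩
  have hEY : Gm k p q '' Qd t σ τ ⊆ Uᶜ := by
    rintro z ⟨w, hw, rfl⟩ hzU
    exact hQdne w hw ((hU w hw.1.le).1 hzU)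
  refine ⟨?_, ?_⟩
  · intro z hz
    refine ⟨hEY hz, ?_⟩
    apply comp_eq Uᶜ (Gm k p q '' Qd t σ τ) (Gm k p q '' Qd t σ τ) _ hEY hopen subset_rfl
      inter_subset_right _ z hz
    · apply (convex_Qd t σ τ).isPreconnected.image
      exact hGc.mono (hQsub.trans ball_subset_closedBall)
    · rw [hclim]
      rintro z ⟨hzU, w, hw, rfl⟩
      exact ⟨w, hQcd w hw (fun h => hzU ((hU w hw.1).2 h)), rfl⟩
  · rw [hopen.frontier_eq, hclim]
    ext z
    constructor
    · rintro ⟨⟨w, hw, rfl⟩, hz⟩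
      refine ⟨w, ⟨hw.1, hw.2.1, hw.2.2, ?_⟩, rfl⟩
      by_contra hc
      exact hz ⟨w, hQcd w hw hc, rfl⟩
    · rintro ⟨w, ⟨h1, h2, h3, h4⟩, rfl⟩
      refine ⟨⟨w, ⟨h1, h2, h3⟩, rfl⟩, ?_⟩
      rintro ⟨w', hw', he⟩
      have e1 := (hG w h1).2.1
      have e2 := (hG w' hw'.1.le).2.1
      rw [he, e1] at e2
      rw [← e2] at hw'
      exact hQdne w hw' h4

end Pool.Agent.Q187.OC
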