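import Pool.Agent.Q266.OC.Stm

set_option autoImplicit false

open Metric Set Topology Filter

namespace Pool.Agent.Q187.OC

open Pool.Agent.Q266.OC

theorem t_mid (hB : S_Base) (hCnt : S_Cnt) (hG : S_Glob) : S_Mid := by
  intro d K M c hd hK hKM hc
  obtain ⟨A, hA, hcard, E, hE, hE2⟩ := hB d K M hd hK hKM
  obtain ⟨P, hP, hPc⟩ := hCnt A hA E hE2
  have hcP : c ≤ P.card := by
    have h1 : 4 * K * d + 4 * K * d = 8 * K * d := by ring
    omega
  obtain ⟨Q, hQ, hQc⟩ := Finset.exists_subset_card_eq hcP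
  obtain ⟨B, hB1, -, hB3, T, hT, hT2⟩ := hG A hA Q (fun z hz => hP (hQ hz))
  refine ⟨B, hB1, ?_, T, ?_, hT2⟩
  · rw [hB3, hcard, hQc]
  · rw [hT, hQc]

theorem t_fin (hM : S_Mid) : S_Fin := by
  constructor
  · intro n hn
    obtain ⟨d, hd⟩ : ∃ d, d = (n + 3) / 5 := ⟨_, rfl⟩
    obtain ⟨B, hB, hBc, T, hT, hT2⟩ := hM d 1 1 (n - 1 - d) (by omega) le_rfl le_rfl (by omega)
    exact ⟨B, hB, by omega, T, by omega, hT2⟩
  · intro n hn
    obtain ⟨s, hs⟩ : ∃ s, s = Nat.sqrt n := ⟨_, rfl⟩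
    have hs1 : s * s ≤ n := by rw [hs]; exact Nat.sqrt_le n
    have hs2 : n < (s + 1) * (s + 1) := by rw [hs]; exact Nat.lt_succ_sqrt n
    have hs15 : 15 ≤ s := by
      by_contra h
      push Not at h
      have : (s + 1) * (s + 1) ≤ 15 * 15 := Nat.mul_le_mul (by omega) (by omega)
      omega
    obtain ⟨d, hd⟩ : ∃ d, d = s / 3 := ⟨_, rfl⟩
    have hd1 : 3 * d ≤ s := by omega
    have hd2 : s ≤ 3 * d + 2 := by omega
    have hd5 : 5 ≤ d := by omega
    have h9 : 9 * (d * d) ≤ n := by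
      have : (3 * d) * (3 * d) ≤ s * s := Nat.mul_le_mul hd1 hd1
      nlinarith
    have h10 : n < (3 * (d + 1)) * (3 * (d + 1)) := by
      have : (s + 1) * (s + 1) ≤ (3 * (d + 1)) * (3 * (d + 1)) :=
        Nat.mul_le_mul (by omega) (by omega)
      omega
    have hdd : d ≤ d * d := Nat.le_mul_self d
    have e8 : 8 * d * d = 8 * (d * d) := by ring
    obtain ⟨B, hB, hBc, T, hT, hT2⟩ := hM d d (n - 9 * (d * d) + 4 * d) (8 * (d * d) - 4 * d) hd5
      (by omega) (by omega) (by omega)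
    refine ⟨B, hB, by omega, T, ?_, hT2⟩
    have hTr : (T.card : ℝ) = 32 * (d : ℝ) ^ 2 - 16 * d := by
      rw [hT]
      rw [Nat.cast_mul, Nat.cast_sub (by omega)]
      push_cast
      ring
    rw [hTr]
    set u : ℝ := √(n : ℝ) with hu
    have hu0 : 0 ≤ u := Real.sqrt_nonneg _
    have hu2 : u ^ 2 = n := Real.sq_sqrt (Nat.cast_nonneg n)
    have hdR : (5 : ℝ) ≤ d := by exact_mod_cast hd5
    have hu3 : u < 3 * (d + 1) := by
      rw [hu, Real.sqrt_lt' (by positivity)]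
      have : (n : ℝ) < (3 * (d + 1)) * (3 * (d + 1)) := by exact_mod_cast h10
      rw [sq]
      exact this
    rw [← hu2]
    have hu4 : 15 ≤ u := by
      rw [hu]
      apply Real.le_sqrt_of_sq_le
      have : (225 : ℝ) ≤ n := by exact_mod_cast hn
      linarith
    have h1 : 0 ≤ (3 * ((d : ℝ) + 1) - u) * (32 / 9 * (3 * ((d : ℝ) + 1) + u) - 27) := by
      apply mul_nonneg
      · linarith
      · linarith
    nlinarith

end Pool.Agent.Q187.OC
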