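import Pool.Agent.Q266.OC.Stm

set_option autoImplicit false

open Metric Set Topology Filter

namespace Pool.Agent.Q187.OC

open Pool.Agent.Q266.OC

theorem orth_symm (S T : ℂ × ℝ) (h : Orth S T) : Orth T S := by
  refine ⟨by rw [Set.inter_comm]; exact h.1, ?_⟩
  intro z hz
  rw [real_inner_comm]
  exact h.2 z ⟨hz.2, hz.1⟩

theorem t_glob (hO : S_Orth) (hA : S_Apo) (hS : S_Sel) (hL : S_Loc) : S_Glob := by
  classical
  intro A hArr P hP
  obtain ⟨X, Y, q, t, ht0, ht1, h1, h2, h3⟩ := hS A hArr P hP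
  let N : ℂ → ℂ × ℝ := fun p => Pool.Agent.Q266.OC.apo p (q p) t
  have hN : ∀ p ∈ P, 0 < (N p).2 ∧ (∀ z, z ∈ pts (N p) ↔ ‖z - p‖ = t * ‖z - q p‖) ∧
      (∀ (a : ℂ) (r : ℝ), p ∈ pts (a, r) → q p ∈ pts (a, r) →
        dist (N p).1 a ^ 2 = (N p).2 ^ 2 + r ^ 2) := by
    intro p hp
    exact hA p (q p) t (Ne.symm (h1 p hp).2.2.2.1) ht0 ht1
  have hne : ∀ p ∈ P, (pts (N p)).Nonempty := by
    intro p hp
    unfold pts
    exact NormedSpace.sphere_nonempty.2 (hN p hp).1.le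
  have hpN : ∀ p ∈ P, p ∉ pts (N p) := by
    intro p hp h
    have e := ((hN p hp).2.1 p).1 h
    rw [sub_self, norm_zero] at e
    have : 0 < t * ‖p - q p‖ :=
      mul_pos ht0 (norm_pos_iff.2 (sub_ne_zero.2 (Ne.symm (h1 p hp).2.2.2.1)))
    linarith
  have hNX : ∀ p ∈ P, N p ≠ X p := by
    intro p hp h
    apply hpN p hp
    rw [h]
    exact (h1 p hp).2.2.2.2.1
  have hNY : ∀ p ∈ P, N p ≠ Y p := by
    intro p hp h
    apply hpN p hp
    rw [h]
    exact (h1 p hp).2.2.2.2.2.2.1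
  have hNA : ∀ p ∈ P, N p ∉ A := by
    intro p hp h
    obtain ⟨z, hz⟩ := hne p hp
    have e1 := h2 p hp (N p) h (hNX p hp) (hNY p hp) z hz
    have e2 := ((hN p hp).2.1 z).1 hz
    linarith
  have hNd : ∀ p ∈ P, ∀ p' ∈ P, p ≠ p' → Disjoint (pts (N p)) (pts (N p')) := by
    intro p hp p' hp' hpp
    rw [Set.disjoint_left]
    intro z hz hz'
    have e1 := h3 p hp p' hp' hpp z (((hN p hp).2.1 z).1 hz).le
    have e2 := ((hN p' hp').2.1 z).1 hz'
    linarith
  have hNinj : ∀ p ∈ P, ∀ p' ∈ P, N p = N p' → p = p' := by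
    intro p hp p' hp' h
    by_contra hpp
    obtain ⟨z, hz⟩ := hne p hp
    have hz' := hz
    rw [h] at hz'
    exact Set.disjoint_left.1 (hNd p hp p' hp' hpp) hz hz'
  have hmix : ∀ S ∈ A, ∀ p ∈ P, Disjoint (pts S) (pts (N p)) ∨ Orth S (N p) := by
    intro S hSA p hp
    obtain ⟨a1, a2, a3, a4, a5, a6, a7, a8⟩ := h1 p hp
    obtain ⟨b1, b2, b3⟩ := hN p hp
    by_cases hSX : S = X p
    · right
      rw [hSX]
      have e := b3 (X p).1 (X p).2 a5 a6
      rw [dist_comm, add_comm] at e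
      exact hO (X p).1 (N p).1 (X p).2 (N p).2 (hArr.1 _ a1) b1 e
    · by_cases hSY : S = Y p
      · right
        rw [hSY]
        have e := b3 (Y p).1 (Y p).2 a7 a8
        rw [dist_comm, add_comm] at e
        exact hO (Y p).1 (N p).1 (Y p).2 (N p).2 (hArr.1 _ a2) b1 e
      · left
        rw [Set.disjoint_left]
        intro z hz hz'
        have e1 := h2 p hp S hSA hSX hSY z hz
        have e2 := (b2 z).1 hz'
        linarith
  let B : Finset (ℂ × ℝ) := A ∪ P.image N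
  have hBmem : ∀ S, S ∈ B ↔ S ∈ A ∨ ∃ p ∈ P, N p = S := by
    intro S
    simp only [B, Finset.mem_union, Finset.mem_image]
  have hB : IsArr B := by
    constructor
    · intro S hSB
      rcases (hBmem S).1 hSB with h | ⟨p, hp, rfl⟩
      · exact hArr.1 S h
      · exact (hN p hp).1
    · intro S hSB T hTB hST
      rcases (hBmem S).1 hSB with h | ⟨p, hp, rfl⟩ <;>
      rcases (hBmem T).1 hTB with h' | ⟨p', hp', rfl⟩
      · exact hArr.2 S h T h' hST
      · exact hmix S h p' hp'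
      · rcases hmix T h' p hp with h'' | h''
        · exact Or.inl h''.symm
        · exact Or.inr (orth_symm _ _ h'')
      · left
        apply hNd p hp p' hp'
        rintro rfl
        exact hST rfl
  have hAB : A ⊆ B := Finset.subset_union_left
  have hcard : B.card = A.card + P.card := by
    rw [Finset.card_union_of_disjoint, Finset.card_image_of_injOn]
    · intro p hp p' hp' h
      exact hNinj p hp p' hp' h
    · rw [Finset.disjoint_left]
      intro S hSA hS'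
      obtain ⟨p, hp, rfl⟩ := Finset.mem_image.1 hS'
      exact hNA p hp hSA
  have hloc : ∀ p ∈ P, ∃ T : Finset (Set ℂ), T.card = 4 ∧
      ∀ F ∈ T, Triangular B F ∧ F.Nonempty ∧ F ⊆ {z | ‖z - p‖ < t * ‖z - q p‖} := by
    intro p hp
    obtain ⟨a1, a2, a3, a4, a5, a6, a7, a8⟩ := h1 p hp
    apply hL B hB (X p) (hAB a1) (Y p) (hAB a2) a3 p (q p) t (Ne.symm a4) ht0 ht1 a5 a6 a7 a8
      ((hBmem _).2 (Or.inr ⟨p, hp, rfl⟩)) (hNX p hp) (hNY p hp)
    intro Z hZB hZX hZY hZN z hz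
    rcases (hBmem Z).1 hZB with h | ⟨p', hp', rfl⟩
    · exact h2 p hp Z h hZX hZY z hz
    · have hpp : p' ≠ p := by
        rintro rfl
        exact hZN rfl
      exact h3 p' hp' p hp hpp z (((hN p' hp').2.1 z).1 hz).le
  choose! T hT using hloc
  refine ⟨B, hB, hAB, hcard, P.biUnion T, ?_, ?_⟩
  · rw [Finset.card_biUnion, Finset.sum_congr rfl (fun p hp => (hT p hp).1), Finset.sum_const,
      smul_eq_mul, mul_comm]
    intro p hp p' hp' hpp
    show Disjoint (T p) (T p')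
    rw [Finset.disjoint_left]
    intro F hF hF'
    obtain ⟨-, ⟨z, hz⟩, hsub⟩ := (hT p hp).2 F hF
    obtain ⟨-, -, hsub'⟩ := (hT p' hp').2 F hF'
    have e1 : ‖z - p‖ < t * ‖z - q p‖ := hsub hz
    have e2 : ‖z - p'‖ < t * ‖z - q p'‖ := hsub' hz
    have := h3 p hp p' hp' hpp z e1.le
    linarith
  · intro F hF
    obtain ⟨p, hp, hF⟩ := Finset.mem_biUnion.1 hF
    exact ((hT p hp).2 F hF).1

end Pool.Agent.Q187.OC
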