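import Pool.Agent.Q187.OC.AXES

set_option autoImplicit false

open Metric Set

namespace Pool.Agent.Q187.OC

open Pool.Agent.Q266.OC

theorem inner_coord (u v : ℂ) : inner ℝ u v = u.re * v.re + u.im * v.im := by
  rw [Complex.inner]
  simp only [Complex.mul_re, Complex.conj_re, Complex.conj_im]
  ring

theorem t_orth : S_Orth := by
  intro a b r s hr hs hab
  have hN0 : 0 < r ^ 2 + s ^ 2 := by positivity
  rw [dist_comm, dist_eq_norm, sq_norm_coord] at hab
  refine ⟨?_, ?_⟩
  · rw [Set.ncard_eq_two]
    set N : ℝ := r ^ 2 + s ^ 2 with hN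
    set d1 : ℝ := (b - a).re with hd1
    set d2 : ℝ := (b - a).im with hd2
    let z1 : ℂ := ⟨a.re + (d1 * r ^ 2 - d2 * (r * s)) / N, a.im + (d2 * r ^ 2 + d1 * (r * s)) / N⟩
    let z2 : ℂ := ⟨a.re + (d1 * r ^ 2 + d2 * (r * s)) / N, a.im + (d2 * r ^ 2 - d1 * (r * s)) / N⟩
    refine ⟨z1, z2, ?_, ?_⟩
    · intro h
      have h1 : z1.re = z2.re := by rw [h]
      have h2 : z1.im = z2.im := by rw [h]
      simp only [z1, z2] at h1 h2
      have e1 : d2 * (r * s) = 0 := by
        field_simp at h1
        linarith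
      have e2 : d1 * (r * s) = 0 := by
        field_simp at h2
        linarith
      have hrs : r * s ≠ 0 := by positivity
      have e3 : d2 = 0 := by simpa [hrs] using e1
      have e4 : d1 = 0 := by simpa [hrs] using e2
      rw [e3, e4] at hab
      simp at hab
      exact hN0.ne hab
    · ext z
      rw [Set.mem_inter_iff, mem_pts_iff _ _ _ hr, mem_pts_iff _ _ _ hs, sq_norm_coord,
        sq_norm_coord, Set.mem_insert_iff, Set.mem_singleton_iff]
      constructor
      · rintro ⟨h1, h2⟩
        have hx : (z - b).re = (z - a).re - d1 := by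
          simp only [hd1, Complex.sub_re]; ring
        have hy : (z - b).im = (z - a).im - d2 := by
          simp only [hd2, Complex.sub_im]; ring
        rw [hx, hy] at h2
        set x := (z - a).re with hxd
        set y := (z - a).im with hyd
        have h3 : x * d1 + y * d2 = r ^ 2 := by
          have : N = r ^ 2 + s ^ 2 := hN
          linear_combination (1 / 2) * h1 - (1 / 2) * h2 + (1 / 2) * hab
        have h4 : (x * d2 - y * d1) ^ 2 = (r * s) ^ 2 := by
          have : (x * d1 + y * d2) ^ 2 + (x * d2 - y * d1) ^ 2 = (x ^ 2 + y ^ 2) * (d1 ^ 2 + d2 ^ 2) := by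
            ring
          rw [h3, h1, hab] at this
          rw [hN] at this
          linarith
        have h5 : (x * d2 - y * d1 - r * s) * (x * d2 - y * d1 + r * s) = 0 := by linear_combination h4
        have hx1 : ∀ e : ℝ, x * d2 - y * d1 = e → x * N = d1 * r ^ 2 + d2 * e := by
          intro e he
          rw [← hab, ← h3, ← he]; ring
        have hy1 : ∀ e : ℝ, x * d2 - y * d1 = e → y * N = d2 * r ^ 2 - d1 * e := by
          intro e he
          rw [← hab, ← h3, ← he]; ring
        have zx : z.re = a.re + x := by rw [hxd, Complex.sub_re]; ring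
        have zy : z.im = a.im + y := by rw [hyd, Complex.sub_im]; ring
        rcases mul_eq_zero.1 h5 with h | h
        · right
          have e := hx1 (r * s) (by linarith)
          have e' := hy1 (r * s) (by linarith)
          apply Complex.ext
          · simp only [z2]; rw [zx, ← e]; field_simp
          · simp only [z2]; rw [zy, ← e']; field_simp
        · left
          have e := hx1 (-(r * s)) (by linarith)
          have e' := hy1 (-(r * s)) (by linarith)
          apply Complex.ext
          · simp only [z1]; rw [zx, show d1 * r ^ 2 - d2 * (r * s) = x * N by rw [e]; ring]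
            field_simp
          · simp only [z1]; rw [zy, show d2 * r ^ 2 + d1 * (r * s) = y * N by rw [e']; ring]
            field_simp
      · have hd1' : b.re = a.re + d1 := by rw [hd1, Complex.sub_re]; ring
        have hd2' : b.im = a.im + d2 := by rw [hd2, Complex.sub_im]; ring
        have hNe : N = r ^ 2 + s ^ 2 := hN
        rintro (rfl | rfl)
        · simp only [z1, Complex.sub_re, Complex.sub_im, hd1', hd2']
          constructor
          · field_simp
            rw [← hab] at hNe ⊢
            linear_combination (r ^ 2 * (d1 ^ 2 + d2 ^ 2)) * (-hNe)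
          · field_simp
            rw [← hab] at hNe ⊢
            have hs2 : s ^ 2 = d1 ^ 2 + d2 ^ 2 - r ^ 2 := by linarith
            have hrs : (r * s) ^ 2 = r ^ 2 * (d1 ^ 2 + d2 ^ 2 - r ^ 2) := by rw [mul_pow, hs2]
            rw [hs2]
            linear_combination (d1 ^ 2 + d2 ^ 2) * hrs
        · simp only [z2, Complex.sub_re, Complex.sub_im, hd1', hd2']
          constructor
          · field_simp
            rw [← hab] at hNe ⊢
            linear_combination (r ^ 2 * (d1 ^ 2 + d2 ^ 2)) * (-hNe)
          · field_simp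
            rw [← hab] at hNe ⊢
            have hs2 : s ^ 2 = d1 ^ 2 + d2 ^ 2 - r ^ 2 := by linarith
            have hrs : (r * s) ^ 2 = r ^ 2 * (d1 ^ 2 + d2 ^ 2 - r ^ 2) := by rw [mul_pow, hs2]
            rw [hs2]
            linear_combination (d1 ^ 2 + d2 ^ 2) * hrs
  · rintro z ⟨h1, h2⟩
    rw [mem_pts_iff _ _ _ hr, sq_norm_coord] at h1
    rw [mem_pts_iff _ _ _ hs, sq_norm_coord] at h2
    rw [inner_coord]
    simp only [Complex.sub_re, Complex.sub_im] at *
    linear_combination (1 / 2) * h1 + (1 / 2) * h2 - (1 / 2) * hab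

theorem t_three : S_Three := by
  intro A hA S hS T hT V hV h1 h2 h3 z ⟨z1, z2, z3⟩
  have ho : ∀ S ∈ A, ∀ T ∈ A, S ≠ T → z ∈ pts S → z ∈ pts T →
      (z - S.1).re * (z - T.1).re + (z - S.1).im * (z - T.1).im = 0 := by
    intro S hS T hT h zS zT
    rcases hA.2 S hS T hT h with h' | h'
    · exact absurd zT (Set.disjoint_left.1 h' zS)
    · rw [← inner_coord]
      exact h'.2 z ⟨zS, zT⟩
  have hn : ∀ S ∈ A, z ∈ pts S → 0 < (z - S.1).re ^ 2 + (z - S.1).im ^ 2 := by
    intro S hS zS
    have h := (mem_pts_iff S.1 z S.2 (hA.1 S hS)).1 zS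
    rw [← sq_norm_coord, h]
    exact pow_pos (hA.1 S hS) 2
  have a := ho S hS T hT h1 z1 z2
  have b := ho S hS V hV h2 z1 z3
  have c := ho T hT V hV h3 z2 z3
  have d := hn S hS z1
  have e := hn T hT z2
  have f := hn V hV z3
  set u1 := (z - S.1).re
  set u2 := (z - S.1).im
  set v1 := (z - T.1).re
  set v2 := (z - T.1).im
  set w1 := (z - V.1).re
  set w2 := (z - V.1).im
  have k : (u1 * v2 - u2 * v1) * (u1 * w2 - u2 * w1) = 0 := by
    have : (u1 ^ 2 + u2 ^ 2) * (v1 * w1 + v2 * w2) = (u1 * v1 + u2 * v2) * (u1 * w1 + u2 * w2) +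
      (u1 * v2 - u2 * v1) * (u1 * w2 - u2 * w1) := by ring
    rw [c, a] at this
    linarith
  rcases mul_eq_zero.1 k with k | k
  · have : (u1 ^ 2 + u2 ^ 2) * (v1 ^ 2 + v2 ^ 2) = (u1 * v1 + u2 * v2) ^ 2 + (u1 * v2 - u2 * v1) ^ 2 := by
      ring
    rw [a, k] at this
    have : 0 < (u1 ^ 2 + u2 ^ 2) * (v1 ^ 2 + v2 ^ 2) := mul_pos d e
    linarith
  · have : (u1 ^ 2 + u2 ^ 2) * (w1 ^ 2 + w2 ^ 2) = (u1 * w1 + u2 * w2) ^ 2 + (u1 * w2 - u2 * w1) ^ 2 := by
      ring
    rw [b, k] at this
    have : 0 < (u1 ^ 2 + u2 ^ 2) * (w1 ^ 2 + w2 ^ 2) := mul_pos d f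
    linarith

end Pool.Agent.Q187.OC
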