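import Pool.Agent.Q187.OC.RAY
import Pool.Agent.Q187.OC.ORTH

set_option autoImplicit false

open Metric Set Topology Filter

namespace Pool.Agent.Q187.OC

open Pool.Agent.Q266.OC

theorem sign_real (σ x : ℝ) (hσ : σ * σ = 1) : σ * (σ * x) = x := by
  rw [← mul_assoc, hσ, one_mul]

/-- one triangular face -/
theorem tri (hC : S_Chart) (hF : S_Face) (hR : S_Ray) (hS : S_Small)
    (B : Finset (ℂ × ℝ)) (X Y V : ℂ × ℝ) (hXB : X ∈ B) (hYB : Y ∈ B) (hVB : V ∈ B)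
    (k p q : ℂ) (t : ℝ) (hk : ‖k‖ = 1) (hpq : p ≠ q) (ht0 : 0 < t) (ht1 : t < 1)
    (hV : ∀ z, z ∈ pts V ↔ ‖z - p‖ = t * ‖z - q‖)
    (hX : ∀ w, ‖w‖ ≤ t → (Gm k p q w ∈ pts X ↔ w.re = 0))
    (hY : ∀ w, ‖w‖ ≤ t → (Gm k p q w ∈ pts Y ↔ w.im = 0))
    (hcar : ∀ w, ‖w‖ ≤ t → (Gm k p q w ∈ carrier B ↔ w.re = 0 ∨ w.im = 0 ∨ ‖w‖ = t))
    (hcr : ∀ w, ‖w‖ ≤ t → (Gm k p q w ∈ cross B ↔
      (w.re = 0 ∧ w.im = 0) ∨ (w.re = 0 ∧ ‖w‖ = t) ∨ (w.im = 0 ∧ ‖w‖ = t)))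
    (σ τ : ℝ) (hσ : σ = 1 ∨ σ = -1) (hτ : τ = 1 ∨ τ = -1) :
    Triangular B (Gm k p q '' Qd t σ τ) ∧ (Gm k p q '' Qd t σ τ).Nonempty ∧
      Gm k p q '' Qd t σ τ ⊆ {z | ‖z - p‖ < t * ‖z - q‖} := by
  obtain ⟨hGc, hWc, hG, hW, hop⟩ := hC k p q t hk hpq ht0 ht1
  obtain ⟨hF1, hF2⟩ := hF k p q t hk hpq ht0 ht1 (carrier B) hcar σ τ hσ hτ
  have hs := sign_sq σ hσ
  have ht' := sign_sq τ hτ
  have hσ0 : σ ≠ 0 := by rcases hσ with h | h <;> rw [h] <;> norm_num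
  have hτ0 : τ ≠ 0 := by rcases hτ with h | h <;> rw [h] <;> norm_num
  have hσa : |σ| = 1 := by rcases hσ with h | h <;> rw [h] <;> norm_num
  have hτa : |τ| = 1 := by rcases hτ with h | h <;> rw [h] <;> norm_num
  have hinj : ∀ w w' : ℂ, ‖w‖ ≤ t → ‖w'‖ ≤ t → Gm k p q w = Gm k p q w' → w = w' := by
    intro w w' hw hw' he
    rw [← (hG w hw).2.1, he, (hG w' hw').2.1]
  -- a base point
  let w0 : ℂ := ⟨σ * (t / 2), τ * (t / 2)⟩
  have hw0 : w0 ∈ Qd t σ τ := by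
    refine ⟨?_, ?_, ?_⟩
    · have h : ‖w0‖ ^ 2 < t ^ 2 := by
        rw [sq_norm_coord]
        simp only [w0]
        have : (σ * (t / 2)) ^ 2 + (τ * (t / 2)) ^ 2 =
          (σ * σ) * (t / 2) ^ 2 + (τ * τ) * (t / 2) ^ 2 := by ring
        rw [this, hs, ht']
        nlinarith [mul_pos ht0 ht0]
      exact lt_of_pow_lt_pow_left₀ 2 ht0.le h
    · show 0 < σ * (σ * (t / 2))
      rw [sign_real _ _ hs]; positivity
    · show 0 < τ * (τ * (t / 2))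
      rw [sign_real _ _ ht']; positivity
  -- the ray on X
  let v1 : ℂ := ((τ : ℝ) : ℂ) * Complex.I
  have hv1 : ‖v1‖ = 1 := by simp [v1, hτa]
  have hv1re : ∀ x : ℝ, ((x : ℂ) * v1).re = 0 := by intro x; simp [v1]
  have hv1im : ∀ x : ℝ, ((x : ℂ) * v1).im = x * τ := by intro x; simp [v1]
  have hn1 : ∀ x : ℝ, ‖(x : ℂ) * v1‖ = |x| := by
    intro x; rw [norm_mul, hv1, mul_one, Complex.norm_real, Real.norm_eq_abs]
  have hray1 := hR k p q t hk hpq ht0 ht1 v1 hv1 (pts X) (cross B)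
    (by
      intro w hw
      rw [hX w hw]
      constructor
      · intro h
        refine ⟨w.im * τ, ?_⟩
        apply Complex.ext
        · rw [hv1re, h]
        · rw [hv1im]
          rw [mul_assoc, ht', mul_one]
      · rintro ⟨x, rfl⟩
        exact hv1re x)
    (by
      intro x hx
      rw [hcr _ (by rw [hn1]; exact hx), hv1re, hv1im, hn1]
      constructor
      · rintro (⟨-, h⟩ | ⟨-, h⟩ | ⟨-, h⟩)
        · left
          exact (mul_eq_zero.1 h).resolve_right hτ0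
        · exact Or.inr h
        · exact Or.inr h
      · rintro (h | h)
        · left
          exact ⟨rfl, by rw [h, zero_mul]⟩
        · right; left
          exact ⟨rfl, h⟩)
  -- the ray on Y
  let v2 : ℂ := ((σ : ℝ) : ℂ)
  have hv2 : ‖v2‖ = 1 := by simp [v2, hσa]
  have hv2re : ∀ x : ℝ, ((x : ℂ) * v2).re = x * σ := by intro x; simp [v2]
  have hv2im : ∀ x : ℝ, ((x : ℂ) * v2).im = 0 := by intro x; simp [v2]
  have hn2 : ∀ x : ℝ, ‖(x : ℂ) * v2‖ = |x| := by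
    intro x; rw [norm_mul, hv2, mul_one, Complex.norm_real, Real.norm_eq_abs]
  have hray2 := hR k p q t hk hpq ht0 ht1 v2 hv2 (pts Y) (cross B)
    (by
      intro w hw
      rw [hY w hw]
      constructor
      · intro h
        refine ⟨w.re * σ, ?_⟩
        apply Complex.ext
        · rw [hv2re, mul_assoc, hs, mul_one]
        · rw [hv2im, h]
      · rintro ⟨x, rfl⟩
        exact hv2im x)
    (by
      intro x hx
      rw [hcr _ (by rw [hn2]; exact hx), hv2re, hv2im, hn2]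
      constructor
      · rintro (⟨h, -⟩ | ⟨-, h⟩ | ⟨-, h⟩)
        · left
          exact (mul_eq_zero.1 h).resolve_right hσ0
        · exact Or.inr h
        · exact Or.inr h
      · rintro (h | h)
        · left
          exact ⟨by rw [h, zero_mul], rfl⟩
        · right; right
          exact ⟨rfl, h⟩)
  -- the small circle
  have hsm := hS k p q t hk hpq ht0 ht1 (cross B)
    (by
      intro w hw
      rw [hcr w hw.le]
      constructor
      · rintro (⟨h, -⟩ | ⟨h, -⟩ | ⟨h, -⟩)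
        · exact Or.inl h
        · exact Or.inl h
        · exact Or.inr h
      · rintro (h | h)
        · right; left; exact ⟨h, hw⟩
        · right; right; exact ⟨h, hw⟩) σ τ hσ hτ
  have hVset : pts V = {z | ‖z - p‖ = t * ‖z - q‖} := by
    ext z; exact hV z
  obtain ⟨hr1, hr1c⟩ := hray1
  obtain ⟨hr2, hr2c⟩ := hray2
  obtain ⟨hs1, hs1c⟩ := hsm
  rw [← hVset] at hs1
  set e1 : Set ℂ := (fun x : ℝ => Gm k p q ((x : ℂ) * v1)) '' Ioo 0 t with he1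
  set e2 : Set ℂ := (fun x : ℝ => Gm k p q ((x : ℂ) * v2)) '' Ioo 0 t with he2
  set e3 : Set ℂ := Gm k p q '' {w | ‖w‖ = t ∧ 0 < σ * w.re ∧ 0 < τ * w.im} with he3
  have hth : t / 2 ∈ Ioo (0 : ℝ) t := ⟨by linarith, by linarith⟩
  have hz1 : Gm k p q (((t / 2 : ℝ) : ℂ) * v1) ∈ e1 := ⟨t / 2, hth, rfl⟩
  have hz2 : Gm k p q (((t / 2 : ℝ) : ℂ) * v2) ∈ e2 := ⟨t / 2, hth, rfl⟩
  -- a point on the small arc
  have hq2 : (√2 : ℝ) ^ 2 = 2 := Real.sq_sqrt (by norm_num)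
  have hq0 : 0 < (√2 : ℝ) := Real.sqrt_pos.2 (by norm_num)
  let w3 : ℂ := ⟨σ * (t / √2), τ * (t / √2)⟩
  have hw3 : w3 ∈ {w : ℂ | ‖w‖ = t ∧ 0 < σ * w.re ∧ 0 < τ * w.im} := by
    refine ⟨?_, ?_, ?_⟩
    · have h : ‖w3‖ ^ 2 = t ^ 2 := by
        rw [sq_norm_coord]
        simp only [w3]
        have : (σ * (t / √2)) ^ 2 + (τ * (t / √2)) ^ 2 =
          (σ * σ) * (t / √2) ^ 2 + (τ * τ) * (t / √2) ^ 2 := by ring
        rw [this, hs, ht', div_pow, hq2]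
        ring
      exact (sq_eq_sq₀ (norm_nonneg _) ht0.le).1 h
    · show 0 < σ * (σ * (t / √2))
      rw [sign_real _ _ hs]; positivity
    · show 0 < τ * (τ * (t / √2))
      rw [sign_real _ _ ht']; positivity
  have hz3 : Gm k p q w3 ∈ e3 := ⟨w3, hw3, rfl⟩
  -- points of the arcs in the chart
  have hm1 : ∀ w, ‖w‖ ≤ t → Gm k p q w ∈ e1 → w.re = 0 ∧ ‖w‖ < t ∧ w.im ≠ 0 := by
    rintro w hw ⟨x, ⟨hx0, hx1⟩, he⟩
    have he' : Gm k p q ((x : ℂ) * v1) = Gm k p q w := he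
    have hxn : ‖(x : ℂ) * v1‖ ≤ t := by rw [hn1, abs_of_pos hx0]; exact hx1.le
    have e := hinj _ _ hxn hw he'
    rw [← e]
    refine ⟨hv1re x, ?_, ?_⟩
    · rw [hn1, abs_of_pos hx0]; exact hx1
    · rw [hv1im]; exact mul_ne_zero hx0.ne' hτ0
  have hm2 : ∀ w, ‖w‖ ≤ t → Gm k p q w ∈ e2 → w.im = 0 ∧ ‖w‖ < t ∧ w.re ≠ 0 := by
    rintro w hw ⟨x, ⟨hx0, hx1⟩, he⟩
    have he' : Gm k p q ((x : ℂ) * v2) = Gm k p q w := he
    have hxn : ‖(x : ℂ) * v2‖ ≤ t := by rw [hn2, abs_of_pos hx0]; exact hx1.le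
    have e := hinj _ _ hxn hw he'
    rw [← e]
    refine ⟨hv2im x, ?_, ?_⟩
    · rw [hn2, abs_of_pos hx0]; exact hx1
    · rw [hv2re]; exact mul_ne_zero hx0.ne' hσ0
  have hcross0 : Gm k p q 0 ∈ cross B := by
    rw [hcr 0 (by rw [norm_zero]; exact ht0.le)]
    left; exact ⟨rfl, rfl⟩
  have hnt : ‖((t : ℝ) : ℂ)‖ = t := by
    rw [Complex.norm_real, Real.norm_eq_abs, abs_of_pos ht0]
  have a1 : IsArc B e1 := by
    refine ⟨X, hXB, ⟨Gm k p q 0, ?_, hcross0⟩, Gm k p q (((t / 2 : ℝ) : ℂ) * v1),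
      (hr1 _ hz1).1, (hr1 _ hz1).2.symm⟩
    rw [hX 0 (by rw [norm_zero]; exact ht0.le)]
    rfl
  have a2 : IsArc B e2 := by
    refine ⟨Y, hYB, ⟨Gm k p q 0, ?_, hcross0⟩, Gm k p q (((t / 2 : ℝ) : ℂ) * v2),
      (hr2 _ hz2).1, (hr2 _ hz2).2.symm⟩
    rw [hY 0 (by rw [norm_zero]; exact ht0.le)]
    rfl
  have a3 : IsArc B e3 := by
    refine ⟨V, hVB, ⟨Gm k p q ((t : ℝ) : ℂ), ?_, ?_⟩, Gm k p q w3,
      (hs1 _ hz3).1, (hs1 _ hz3).2.symm⟩
    · rw [hV]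
      have := (hG ((t : ℝ) : ℂ) hnt.le).2.2
      rwa [hnt] at this
    · rw [hcr _ hnt.le]
      right; right
      exact ⟨Complex.ofReal_im t, hnt⟩
  have hn1' : ‖((t / 2 : ℝ) : ℂ) * v1‖ ≤ t := by
    rw [hn1, abs_of_pos hth.1]; exact hth.2.le
  refine ⟨⟨?_, e1, e2, e3, a1, a2, a3, ?_, ?_, ?_, ?_⟩, ⟨_, w0, hw0, rfl⟩, ?_⟩
  · refine ⟨Gm k p q w0, ?_, ?_⟩
    · exact (hF1 _ ⟨w0, hw0, rfl⟩).1
    · exact (hF1 _ ⟨w0, hw0, rfl⟩).2.symm
  · intro h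
    have hz := hz1
    rw [h] at hz
    obtain ⟨-, -, b⟩ := hm2 _ hn1' hz
    exact b (hv1re _)
  · intro h
    have hz := hz3
    rw [← h] at hz
    obtain ⟨b, -, -⟩ := hm1 _ hw3.1.le hz
    have := hw3.2.1
    rw [b, mul_zero] at this
    exact lt_irrefl _ this
  · intro h
    have hz := hz3
    rw [← h] at hz
    obtain ⟨b, -, -⟩ := hm2 _ hw3.1.le hz
    have := hw3.2.2
    rw [b, mul_zero] at this
    exact lt_irrefl _ this
  · rw [hF2, hr1c, hr2c, hs1c]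
    ext z
    constructor
    · rintro ⟨w, ⟨h1, h2, h3, h4⟩, rfl⟩
      rcases h4 with h4 | h4 | h4
      · left; left
        refine ⟨τ * w.im, ⟨h3, ?_⟩, ?_⟩
        · calc τ * w.im ≤ |τ * w.im| := le_abs_self _
            _ = |w.im| := by rw [abs_mul, hτa, one_mul]
            _ ≤ ‖w‖ := Complex.abs_im_le_norm w
            _ ≤ t := h1
        · show Gm k p q (((τ * w.im : ℝ) : ℂ) * v1) = Gm k p q w
          congr 1
          apply Complex.ext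
          · rw [hv1re, h4]
          · rw [hv1im, mul_comm (τ * w.im) τ, sign_real _ _ ht']
      · left; right
        refine ⟨σ * w.re, ⟨h2, ?_⟩, ?_⟩
        · calc σ * w.re ≤ |σ * w.re| := le_abs_self _
            _ = |w.re| := by rw [abs_mul, hσa, one_mul]
            _ ≤ ‖w‖ := Complex.abs_re_le_norm w
            _ ≤ t := h1
        · show Gm k p q (((σ * w.re : ℝ) : ℂ) * v2) = Gm k p q w
          congr 1
          apply Complex.ext
          · rw [hv2re, mul_comm (σ * w.re) σ, sign_real _ _ hs]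
          · rw [hv2im, h4]
      · right
        exact ⟨w, ⟨h4, h2, h3⟩, rfl⟩
    · rintro ((⟨x, ⟨hx0, hx1⟩, rfl⟩ | ⟨x, ⟨hx0, hx1⟩, rfl⟩) | ⟨w, ⟨h1, h2, h3⟩, rfl⟩)
      · refine ⟨(x : ℂ) * v1, ⟨?_, ?_, ?_, ?_⟩, rfl⟩
        · rw [hn1, abs_of_nonneg hx0]; exact hx1
        · rw [hv1re, mul_zero]
        · rw [hv1im, mul_comm x τ, sign_real _ _ ht']; exact hx0
        · left; exact hv1re x
      · refine ⟨(x : ℂ) * v2, ⟨?_, ?_, ?_, ?_⟩, rfl⟩
        · rw [hn2, abs_of_nonneg hx0]; exact hx1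
        · rw [hv2re, mul_comm x σ, sign_real _ _ hs]; exact hx0
        · rw [hv2im, mul_zero]
        · right; left; exact hv2im x
      · exact ⟨w, ⟨h1.le, h2, h3, Or.inr (Or.inr h1)⟩, rfl⟩
  · rintro z ⟨w, hw, rfl⟩
    obtain ⟨b1, b2, b3⟩ := hG w hw.1.le
    show ‖Gm k p q w - p‖ < t * ‖Gm k p q w - q‖
    rw [b3]
    exact mul_lt_mul_of_pos_right hw.1 (norm_pos_iff.2 (sub_ne_zero.2 b1))

theorem t_loc (_hT : S_Three) (hA : S_Apo) (hX : S_Axes) (hC : S_Chart) (hF : S_Face)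
    (hR : S_Ray) (hS : S_Small) : S_Loc := by
  classical
  intro B hB X hXB Y hYB hXY p q t hpq ht0 ht1 hpX hqX hpY hqY hVB hVX hVY hZ
  obtain ⟨-, hV, -⟩ := hA p q t hpq ht0 ht1
  set V := apo p q t with hVdef
  have ho : inner ℝ (p - X.1) (p - Y.1) = (0 : ℝ) := by
    rcases hB.2 X hXB Y hYB hXY with h | h
    · exact absurd hpY (Set.disjoint_left.1 h hpX)
    · exact h.2 p ⟨hpX, hpY⟩
  obtain ⟨k, hk, hax⟩ := hX X.1 Y.1 p q X.2 Y.2 (hB.1 X hXB) (hB.1 Y hYB) hpq hpX hqX hpY hqY ho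
  obtain ⟨hGc, hWc, hG, hW, hop⟩ := hC k p q t hk hpq ht0 ht1
  have cX : ∀ w, ‖w‖ ≤ t → (Gm k p q w ∈ pts X ↔ w.re = 0) := by
    intro w hw
    obtain ⟨b1, b2, b3⟩ := hG w hw
    have := (hax _ b1).1
    rw [b2] at this
    exact this
  have cY : ∀ w, ‖w‖ ≤ t → (Gm k p q w ∈ pts Y ↔ w.im = 0) := by
    intro w hw
    obtain ⟨b1, b2, b3⟩ := hG w hw
    have := (hax _ b1).2
    rw [b2] at this
    exact this
  have cV : ∀ w, ‖w‖ ≤ t → (Gm k p q w ∈ pts V ↔ ‖w‖ = t) := by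
    intro w hw
    obtain ⟨b1, b2, b3⟩ := hG w hw
    rw [hV, b3]
    constructor
    · intro h
      exact mul_right_cancel₀ (norm_pos_iff.2 (sub_ne_zero.2 b1)).ne' h
    · intro h
      rw [h]
  have cZ : ∀ w, ‖w‖ ≤ t → ∀ Z ∈ B, Gm k p q w ∈ pts Z → Z = X ∨ Z = Y ∨ Z = V := by
    intro w hw Z hZB hz
    by_contra hcon
    push Not at hcon
    have h := hZ Z hZB hcon.1 hcon.2.1 hcon.2.2 _ hz
    rw [(hG w hw).2.2] at h
    have := mul_le_mul_of_nonneg_right hw (norm_nonneg (Gm k p q w - q))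
    linarith
  have hcar : ∀ w, ‖w‖ ≤ t → (Gm k p q w ∈ carrier B ↔ w.re = 0 ∨ w.im = 0 ∨ ‖w‖ = t) := by
    intro w hw
    constructor
    · rintro ⟨Z, hZB, hz⟩
      rcases cZ w hw Z hZB hz with rfl | rfl | rfl
      · left; exact (cX w hw).1 hz
      · right; left; exact (cY w hw).1 hz
      · right; right; exact (cV w hw).1 hz
    · rintro (h | h | h)
      · exact ⟨X, hXB, (cX w hw).2 h⟩
      · exact ⟨Y, hYB, (cY w hw).2 h⟩
      · exact ⟨V, hVB, (cV w hw).2 h⟩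
  have hcr : ∀ w, ‖w‖ ≤ t → (Gm k p q w ∈ cross B ↔
      (w.re = 0 ∧ w.im = 0) ∨ (w.re = 0 ∧ ‖w‖ = t) ∨ (w.im = 0 ∧ ‖w‖ = t)) := by
    intro w hw
    constructor
    · rintro ⟨S, hSB, T, hTB, hne, hs, ht⟩
      have eX := cX w hw
      have eY := cY w hw
      have eV := cV w hw
      rcases cZ w hw S hSB hs with rfl | rfl | rfl <;> rcases cZ w hw T hTB ht with rfl | rfl | rfl
      · exact absurd rfl hne
      · left; exact ⟨eX.1 hs, eY.1 ht⟩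
      · right; left; exact ⟨eX.1 hs, eV.1 ht⟩
      · left; exact ⟨eX.1 ht, eY.1 hs⟩
      · exact absurd rfl hne
      · right; right; exact ⟨eY.1 hs, eV.1 ht⟩
      · right; left; exact ⟨eX.1 ht, eV.1 hs⟩
      · right; right; exact ⟨eY.1 ht, eV.1 hs⟩
      · exact absurd rfl hne
    · rintro (⟨h, h'⟩ | ⟨h, h'⟩ | ⟨h, h'⟩)
      · exact ⟨X, hXB, Y, hYB, hXY, (cX w hw).2 h, (cY w hw).2 h'⟩
      · exact ⟨X, hXB, V, hVB, Ne.symm hVX, (cX w hw).2 h, (cV w hw).2 h'⟩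
      · exact ⟨Y, hYB, V, hVB, Ne.symm hVY, (cY w hw).2 h, (cV w hw).2 h'⟩
  let f : ℝ × ℝ → Set ℂ := fun e => Gm k p q '' Qd t e.1 e.2
  let D : Finset (ℝ × ℝ) := ({1, -1} : Finset ℝ) ×ˢ ({1, -1} : Finset ℝ)
  have hD : ∀ e ∈ D, (e.1 = 1 ∨ e.1 = -1) ∧ (e.2 = 1 ∨ e.2 = -1) := by
    intro e he
    simpa [D, Finset.mem_product] using he
  have hinj : ∀ w w' : ℂ, ‖w‖ ≤ t → ‖w'‖ ≤ t → Gm k p q w = Gm k p q w' → w = w' := by
    intro w w' hw hw' he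
    rw [← (hG w hw).2.1, he, (hG w' hw').2.1]
  have hDc : D.card = 4 := by
    rw [Finset.card_product, Finset.card_pair (by norm_num)]
  refine ⟨D.image f, ?_, ?_⟩
  · rw [Finset.card_image_of_injOn, hDc]
    intro e he e' he' hee
    have h1 := hD e he
    have h2 := hD e' he'
    have hne := (tri hC hF hR hS B X Y V hXB hYB hVB k p q t hk hpq ht0 ht1 hV cX cY hcar hcr
      e.1 e.2 h1.1 h1.2).2.1
    obtain ⟨z, w, hw, rfl⟩ := hne
    have hz : Gm k p q w ∈ f e' := by rw [← hee]; exact ⟨w, hw, rfl⟩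
    obtain ⟨w', hw', he''⟩ := hz
    have := hinj _ _ hw'.1.le hw.1.le he''
    rw [this] at hw'
    have pos : ∀ a b x : ℝ, (a = 1 ∨ a = -1) → (b = 1 ∨ b = -1) → 0 < a * x → 0 < b * x → a = b := by
      intro a b x ha hb h3 h4
      rcases ha with rfl | rfl <;> rcases hb with rfl | rfl
      · rfl
      · linarith
      · linarith
      · rfl
    exact Prod.ext (pos _ _ _ h1.1 h2.1 hw.2.1 hw'.2.1) (pos _ _ _ h1.2 h2.2 hw.2.2 hw'.2.2)
  · intro F hF'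
    obtain ⟨e, he, rfl⟩ := Finset.mem_image.1 hF'
    have h1 := hD e he
    exact tri hC hF hR hS B X Y V hXB hYB hVB k p q t hk hpq ht0 ht1 hV cX cY hcar hcr
      e.1 e.2 h1.1 h1.2

end Pool.Agent.Q187.OC
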