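import Pool.Agent.Q187.OC.FACE

set_option autoImplicit false

open Metric Set Topology Filter ComplexConjugate

namespace Pool.Agent.Q187.OC

open Pool.Agent.Q266.OC

theorem t_ray (hC : S_Chart) : S_Ray := by
  intro k p q t hk hpq ht0 ht1 v hv C X hCC hXX
  obtain ⟨hGc, hWc, hG, hW, hop⟩ := hC k p q t hk hpq ht0 ht1
  set f : ℝ → ℂ := fun x => Gm k p q ((x : ℂ) * v) with hf
  have hnx : ∀ x : ℝ, ‖(x : ℂ) * v‖ = |x| := by
    intro x
    rw [norm_mul, hv, mul_one, Complex.norm_real, Real.norm_eq_abs]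
  have hfc : ContinuousOn f (Icc 0 t) := by
    apply hGc.comp (f := fun x : ℝ => (x : ℂ) * v) (by fun_prop)
    intro x hx
    rw [mem_closedBall_zero_iff, hnx, abs_of_nonneg hx.1]
    exact hx.2
  have hcl : closure (f '' Ioo 0 t) = f '' Icc 0 t := by
    have h1 : closure (Ioo 0 t) = Icc 0 t := closure_Ioo ht0.ne
    rw [clos_image f (Ioo 0 t) (by rw [h1]; exact isCompact_Icc) (by rw [h1]; exact hfc), h1]
  refine ⟨?_, hcl⟩
  have hEY : f '' Ioo 0 t ⊆ C \ X := by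
    rintro z ⟨x, ⟨hx0, hx1⟩, rfl⟩
    have hxt : |x| ≤ t := by rw [abs_of_pos hx0]; exact hx1.le
    refine ⟨(hCC _ (by rw [hnx]; exact hxt)).2 ⟨x, rfl⟩, ?_⟩
    intro h
    rcases (hXX x hxt).1 h with h | h
    · exact hx0.ne' h
    · rw [abs_of_pos hx0] at h
      exact hx1.ne h
  set O : Set ℂ := {w | ‖w‖ < t ∧ 0 < (w * conj v).re} with hO
  have hOo : IsOpen O := by
    apply IsOpen.inter
    · exact isOpen_lt continuous_norm continuous_const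
    · exact isOpen_lt continuous_const
        (Complex.continuous_re.comp (continuous_id.mul continuous_const))
  have hvv : v * conj v = 1 := by
    rw [Complex.mul_conj, Complex.normSq_eq_norm_sq, hv]; simp
  have hre : ∀ x : ℝ, ((x : ℂ) * v * conj v).re = x := by
    intro x
    rw [mul_assoc, hvv, mul_one, Complex.ofReal_re]
  intro z hz
  refine ⟨hEY hz, ?_⟩
  apply comp_eq (C \ X) (f '' Ioo 0 t) (Gm k p q '' O) _ hEY
    (hop O hOo (fun w hw => mem_ball_zero_iff.2 hw.1)) _ _ _ z hz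
  · apply isPreconnected_Ioo.image
    exact hfc.mono Ioo_subset_Icc_self
  · rintro z ⟨x, ⟨hx0, hx1⟩, rfl⟩
    refine ⟨(x : ℂ) * v, ⟨?_, ?_⟩, rfl⟩
    · rw [hnx, abs_of_pos hx0]; exact hx1
    · rw [hre]; exact hx0
  · rintro z ⟨⟨hzC, hzX⟩, w, ⟨hw1, hw2⟩, rfl⟩
    obtain ⟨x, rfl⟩ := (hCC w hw1.le).1 hzC
    rw [hre] at hw2
    rw [hnx, abs_of_pos hw2] at hw1
    exact ⟨x, ⟨hw2, hw1⟩, rfl⟩
  · rw [hcl]
    rintro z ⟨⟨hzC, hzX⟩, x, ⟨hx0, hx1⟩, rfl⟩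
    have hxt : |x| ≤ t := by rw [abs_of_nonneg hx0]; exact hx1
    have : ¬ (x = 0 ∨ |x| = t) := fun h => hzX ((hXX x hxt).2 h)
    push Not at this
    rw [abs_of_nonneg hx0] at this
    exact ⟨x, ⟨lt_of_le_of_ne hx0 (Ne.symm this.1), lt_of_le_of_ne hx1 this.2⟩, rfl⟩

theorem t_small (hC : S_Chart) : S_Small := by
  intro k p q t hk hpq ht0 ht1 X hXX σ τ hσ hτ
  obtain ⟨hGc, hWc, hG, hW, hop⟩ := hC k p q t hk hpq ht0 ht1
  have hs := sign_sq σ hσ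
  have ht' := sign_sq τ hτ
  -- the parametrisation
  let g : ℝ → ℂ := fun x => ((σ * x : ℝ) : ℂ) + ((τ * √(t ^ 2 - x ^ 2) : ℝ) : ℂ) * Complex.I
  have hgre : ∀ x, (g x).re = σ * x := by intro x; simp [g]
  have hgim : ∀ x, (g x).im = τ * √(t ^ 2 - x ^ 2) := by intro x; simp [g]
  have hgc : Continuous g := by fun_prop
  have hgn : ∀ x ∈ Icc 0 t, ‖g x‖ = t := by
    intro x hx
    have h0 : 0 ≤ t ^ 2 - x ^ 2 := by nlinarith [hx.1, hx.2]
    have : ‖g x‖ ^ 2 = t ^ 2 := by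
      rw [Complex.sq_norm, Complex.normSq_apply, hgre, hgim]
      have e : σ * x * (σ * x) + τ * √(t ^ 2 - x ^ 2) * (τ * √(t ^ 2 - x ^ 2)) =
        (σ * σ) * x ^ 2 + (τ * τ) * (√(t ^ 2 - x ^ 2) * √(t ^ 2 - x ^ 2)) := by ring
      rw [e, hs, ht', Real.mul_self_sqrt h0]
      ring
    exact (sq_eq_sq₀ (norm_nonneg _) ht0.le).1 this
  have hrec : ∀ w : ℂ, ‖w‖ = t → 0 ≤ σ * w.re → 0 ≤ τ * w.im →
      σ * w.re ∈ Icc 0 t ∧ g (σ * w.re) = w := by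
    intro w hw h1 h2
    have hsq : w.re ^ 2 + w.im ^ 2 = t ^ 2 := by
      rw [← hw, Complex.sq_norm, Complex.normSq_apply]; ring
    have e1 : (σ * w.re) ^ 2 = w.re ^ 2 := by
      have : (σ * w.re) ^ 2 = (σ * σ) * w.re ^ 2 := by ring
      rw [this, hs, one_mul]
    refine ⟨⟨h1, ?_⟩, ?_⟩
    · apply le_of_sq_le_sq _ ht0.le
      rw [e1]
      nlinarith [sq_nonneg w.im]
    · apply Complex.ext
      · rw [hgre, ← mul_assoc, hs, one_mul]
      · rw [hgim, e1]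
        have e2 : t ^ 2 - w.re ^ 2 = (τ * w.im) ^ 2 := by
          have : (τ * w.im) ^ 2 = (τ * τ) * w.im ^ 2 := by ring
          rw [this, ht', one_mul]
          linarith
        rw [e2, Real.sqrt_sq h2, ← mul_assoc, ht', one_mul]
  have hA : {w : ℂ | ‖w‖ = t ∧ 0 < σ * w.re ∧ 0 < τ * w.im} = g '' Ioo 0 t := by
    ext w
    constructor
    · rintro ⟨h1, h2, h3⟩
      obtain ⟨hm, he⟩ := hrec w h1 h2.le h3.le
      refine ⟨σ * w.re, ⟨h2, lt_of_le_of_ne hm.2 ?_⟩, he⟩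
      intro hc
      have : w.im = 0 := by
        rw [← he, hgim, hc, sub_self, Real.sqrt_zero, mul_zero]
      rw [this, mul_zero] at h3
      exact lt_irrefl _ h3
    · rintro ⟨x, ⟨hx0, hx1⟩, rfl⟩
      refine ⟨hgn x ⟨hx0.le, hx1.le⟩, ?_, ?_⟩
      · rw [hgre, ← mul_assoc, hs, one_mul]; exact hx0
      · rw [hgim, ← mul_assoc, ht', one_mul]
        apply Real.sqrt_pos.2
        nlinarith
  have hB : {w : ℂ | ‖w‖ = t ∧ 0 ≤ σ * w.re ∧ 0 ≤ τ * w.im} = g '' Icc 0 t := by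
    ext w
    constructor
    · rintro ⟨h1, h2, h3⟩
      obtain ⟨hm, he⟩ := hrec w h1 h2 h3
      exact ⟨σ * w.re, hm, he⟩
    · rintro ⟨x, hx, rfl⟩
      refine ⟨hgn x hx, ?_, ?_⟩
      · rw [hgre, ← mul_assoc, hs, one_mul]; exact hx.1
      · rw [hgim, ← mul_assoc, ht', one_mul]
        exact Real.sqrt_nonneg _
  set f : ℝ → ℂ := fun x => Gm k p q (g x) with hf
  have hfc : ContinuousOn f (Icc 0 t) := by
    apply hGc.comp (f := g) hgc.continuousOn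
    intro x hx
    rw [mem_closedBall_zero_iff, hgn x hx]
  have hcl : closure (f '' Ioo 0 t) = f '' Icc 0 t := by
    have h1 : closure (Ioo 0 t) = Icc 0 t := closure_Ioo ht0.ne
    rw [clos_image f (Ioo 0 t) (by rw [h1]; exact isCompact_Icc) (by rw [h1]; exact hfc), h1]
  have hA' : Gm k p q '' {w : ℂ | ‖w‖ = t ∧ 0 < σ * w.re ∧ 0 < τ * w.im} = f '' Ioo 0 t := by
    rw [hA, image_image]
  have hB' : Gm k p q '' {w : ℂ | ‖w‖ = t ∧ 0 ≤ σ * w.re ∧ 0 ≤ τ * w.im} = f '' Icc 0 t := by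
    rw [hB, image_image]
  refine ⟨?_, by rw [hA', hB', hcl]⟩
  have hEY : Gm k p q '' {w : ℂ | ‖w‖ = t ∧ 0 < σ * w.re ∧ 0 < τ * w.im} ⊆
      {z | ‖z - p‖ = t * ‖z - q‖} \ X := by
    rintro z ⟨w, ⟨h1, h2, h3⟩, rfl⟩
    obtain ⟨-, -, e⟩ := hG w h1.le
    refine ⟨by rw [h1] at e; exact e, ?_⟩
    intro h
    rcases (hXX w h1).1 h with h | h
    · rw [h, mul_zero] at h2; exact lt_irrefl _ h2
    · rw [h, mul_zero] at h3; exact lt_irrefl _ h3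
  have hpull : ∀ z, ‖z - p‖ = t * ‖z - q‖ → z ≠ q ∧ ‖Wm k p q z‖ = t ∧
      Gm k p q (Wm k p q z) = z := by
    intro z hz
    have hzq : z ≠ q := by
      rintro rfl
      rw [sub_self, norm_zero, mul_zero, norm_eq_zero, sub_eq_zero] at hz
      exact hpq hz.symm
    obtain ⟨h1, h2⟩ := hW z hzq hz.le
    have h3 := (hG _ h1).2.2
    rw [h2, hz] at h3
    have h4 : 0 < ‖z - q‖ := norm_pos_iff.2 (sub_ne_zero.2 hzq)
    exact ⟨hzq, (mul_right_cancel₀ h4.ne' h3).symm, h2⟩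
  let O : Set ℂ := {z | z ≠ q} ∩ Wm k p q ⁻¹' {w | 0 < σ * w.re ∧ 0 < τ * w.im}
  have hOo : IsOpen O := by
    apply hWc.isOpen_inter_preimage isOpen_ne
    apply IsOpen.inter
    · exact isOpen_lt continuous_const (continuous_const.mul Complex.continuous_re)
    · exact isOpen_lt continuous_const (continuous_const.mul Complex.continuous_im)
  intro z hz
  refine ⟨hEY hz, ?_⟩
  apply comp_eq _ _ O _ hEY hOo _ _ _ z hz
  · rw [hA']
    exact isPreconnected_Ioo.image _ (hfc.mono Ioo_subset_Icc_self)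
  · rintro z ⟨w, ⟨h1, h2, h3⟩, rfl⟩
    obtain ⟨e1, e2, -⟩ := hG w h1.le
    refine ⟨e1, ?_⟩
    show 0 < σ * (Wm k p q (Gm k p q w)).re ∧ 0 < τ * (Wm k p q (Gm k p q w)).im
    rw [e2]
    exact ⟨h2, h3⟩
  · rintro z ⟨⟨hz1, hz2⟩, hz3, hz4, hz5⟩
    obtain ⟨-, e2, e3⟩ := hpull z hz1
    exact ⟨Wm k p q z, ⟨e2, hz4, hz5⟩, e3⟩
  · rw [show closure (Gm k p q '' {w : ℂ | ‖w‖ = t ∧ 0 < σ * w.re ∧ 0 < τ * w.im}) =
        Gm k p q '' {w : ℂ | ‖w‖ = t ∧ 0 ≤ σ * w.re ∧ 0 ≤ τ * w.im} by rw [hA', hB', hcl]]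
    rintro z ⟨⟨hz1, hz2⟩, w, ⟨h1, h2, h3⟩, rfl⟩
    have : ¬ (w.re = 0 ∨ w.im = 0) := fun h => hz2 ((hXX w h1).2 h)
    push Not at this
    exact ⟨w, ⟨h1, (sign_ne σ _ hσ h2).2 this.1, (sign_ne τ _ hτ h3).2 this.2⟩, rfl⟩

end Pool.Agent.Q187.OC
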