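import Pool.Agent.Q187.OC.GLOB

set_option autoImplicit false

open Metric Set Topology Filter

namespace Pool.Agent.Q187.OC

open Pool.Agent.Q266.OC

theorem polar_dist (A B α β : ℝ) :
    dist ((A : ℂ) * Complex.exp ((α : ℂ) * Complex.I)) ((B : ℂ) * Complex.exp ((β : ℂ) * Complex.I)) ^ 2
      = A ^ 2 + B ^ 2 - 2 * A * B * Real.cos (α - β) := by
  rw [dist_eq_norm, Complex.sq_norm, Complex.normSq_apply]
  simp only [Complex.sub_re, Complex.sub_im, Complex.re_ofReal_mul, Complex.im_ofReal_mul,
    Complex.exp_ofReal_mul_I_re, Complex.exp_ofReal_mul_I_im]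
  rw [Real.cos_sub]
  have h1 := Real.sin_sq_add_cos_sq α
  have h2 := Real.sin_sq_add_cos_sq β
  linear_combination A ^ 2 * h1 + B ^ 2 * h2

theorem ring_dist (d j i j' i' : ℕ) (hd : (d : ℝ) ≠ 0) :
    dist (ring d j i).1 (ring d j' i').1 ^ 2 =
      rho d ^ 2 * (lam d ^ (2 * j) + lam d ^ (2 * j') -
        2 * (lam d ^ j * lam d ^ j') *
          Real.cos (Real.pi * ((2 * ((i : ℤ) - i') + ((j : ℤ) - j') : ℤ) : ℝ) / d)) := by
  have e := polar_dist (lam d ^ j * rho d) (lam d ^ j' * rho d) (Real.pi * (2 * i + j) / d)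
    (Real.pi * (2 * i' + j') / d)
  have e2 : Real.pi * (2 * (i : ℝ) + j) / d - Real.pi * (2 * (i' : ℝ) + j') / d =
      Real.pi * ((2 * ((i : ℤ) - i') + ((j : ℤ) - j') : ℤ) : ℝ) / d := by
    push_cast
    field_simp
    ring
  rw [e2] at e
  unfold ring
  rw [e]
  ring

/-- two circles far apart are disjoint -/
theorem far_disjoint (S T : ℂ × ℝ) (_hS : 0 < S.2) (_hT : 0 < T.2)
    (h : (S.2 + T.2) ^ 2 < dist S.1 T.1 ^ 2) : Disjoint (pts S) (pts T) := by
  rw [Set.disjoint_left]
  intro z hz hz'
  unfold pts at hz hz'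
  rw [mem_sphere] at hz hz'
  have h1 : dist S.1 T.1 ≤ S.2 + T.2 := by
    calc dist S.1 T.1 ≤ dist S.1 z + dist z T.1 := dist_triangle _ _ _
      _ = S.2 + T.2 := by rw [dist_comm S.1 z, hz, hz']
  have h2 : dist S.1 T.1 ^ 2 ≤ (S.2 + T.2) ^ 2 := pow_le_pow_left₀ dist_nonneg h1 2
  linarith

theorem int_k (d : ℕ) (s k e : ℤ) (hd : 5 ≤ d) (hs1 : -(d : ℤ) < s) (hs2 : s < d)
    (he : s - d * k = e) (he1 : -1 ≤ e) (he2 : e ≤ 1) : k = 0 ∨ k = 1 ∨ k = -1 := by
  have hd' : (5 : ℤ) ≤ d := by exact_mod_cast hd
  have h1 : k < 2 := by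
    by_contra h
    push Not at h
    nlinarith
  have h2 : -2 < k := by
    by_contra h
    push Not at h
    nlinarith
  omega

theorem ring_le (hO : S_Orth) (hP : S_Par) (hC : S_Cos) (d : ℕ) (hd : 5 ≤ d) (j i j' i' : ℕ)
    (hi : i < d) (hi' : i' < d) (hjj : j ≤ j') :
    (j' = j → (i' = i + 1 ∨ i = i' + 1 ∨ (i = d - 1 ∧ i' = 0) ∨ (i' = d - 1 ∧ i = 0)) →
      Orth (ring d j i) (ring d j' i')) ∧
    (j' = j + 1 → (i' = i ∨ i = i' + 1 ∨ (i = 0 ∧ i' = d - 1)) →
      Orth (ring d j i) (ring d j' i')) ∧
    ((j, i) ≠ (j', i') → Disjoint (pts (ring d j i)) (pts (ring d j' i')) ∨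
      Orth (ring d j i) (ring d j' i')) := by
  obtain ⟨c0, c1, c2, x1, x2, rr0, rho2, rr2, rho1, lam1, lam2, hlr⟩ := hP d hd
  have hdR : (5 : ℝ) ≤ d := by exact_mod_cast hd
  have hd0 : (0 : ℝ) < d := by linarith
  have hpi := Real.pi_pos
  have lam0 : 0 < lam d := by linarith
  set c := cc d with hc
  set L := lam d ^ j with hL
  set M := lam d ^ j' with hM
  have hL0 : 0 < L := pow_pos lam0 _
  have hM0 : 0 < M := pow_pos lam0 _
  have hdist := ring_dist d j i j' i' hd0.ne'
  have hL2 : lam d ^ (2 * j) = L ^ 2 := by rw [hL, ← pow_mul, mul_comm]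
  have hM2 : lam d ^ (2 * j') = M ^ 2 := by rw [hM, ← pow_mul, mul_comm]
  rw [hL2, hM2, ← hL, ← hM] at hdist
  set D := Real.cos (Real.pi * ((2 * ((i : ℤ) - i') + ((j : ℤ) - j') : ℤ) : ℝ) / d) with hD
  have hrS : (ring d j i).2 = L * rr d := rfl
  have hrT : (ring d j' i').2 = M * rr d := rfl
  -- the two criteria
  have hOr : c * (L ^ 2 + M ^ 2) = 2 * (L * M) * D → Orth (ring d j i) (ring d j' i') := by
    intro h
    refine hO (ring d j i).1 (ring d j' i').1 (ring d j i).2 (ring d j' i').2
      (by rw [hrS]; positivity) (by rw [hrT]; positivity) ?_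
    rw [hdist, hrS, hrT, mul_pow, mul_pow, rr2, rho2]
    field_simp
    linear_combination h
  have hDi : 2 * (L * M) * (D + 1 - c) < c * (L ^ 2 + M ^ 2) →
      Disjoint (pts (ring d j i)) (pts (ring d j' i')) := by
    intro h
    apply far_disjoint _ _ (by rw [hrS]; positivity) (by rw [hrT]; positivity)
    rw [hdist, hrS, hrT, rho2]
    have e1 : (L * rr d + M * rr d) ^ 2 = (L + M) ^ 2 * (rr d ^ 2) := by ring
    rw [e1, rr2]
    have e2 : (L + M) ^ 2 * (1 / c - 1) = ((L + M) ^ 2 * (1 - c)) / c := by
      field_simp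
    have e3 : 1 / c * (L ^ 2 + M ^ 2 - 2 * (L * M) * D) = (L ^ 2 + M ^ 2 - 2 * (L * M) * D) / c := by
      ring
    rw [e2, e3]
    apply div_lt_div_of_pos_right _ c0
    linarith
  have hx2 : Real.cos (2 * (Real.pi / d)) = c := by rw [Real.cos_two_mul, c2]
  -- case j' = j
  have caseA : j' = j → (i' = i + 1 ∨ i = i' + 1 ∨ (i = d - 1 ∧ i' = 0) ∨ (i' = d - 1 ∧ i = 0)) →
      Orth (ring d j i) (ring d j' i') := by
    intro h hii
    apply hOr
    have hML : M = L := by rw [hM, hL, h]
    have hDc : D = c := by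
      rw [← hx2, hD, h]
      rcases hii with hii | hii | hii | hii
      · have e : (i' : ℝ) = i + 1 := by exact_mod_cast hii
        rw [← Real.cos_neg (2 * (Real.pi / d))]
        congr 1
        push_cast
        rw [e]
        field_simp
        ring
      · have e : (i : ℝ) = i' + 1 := by exact_mod_cast hii
        congr 1
        push_cast
        rw [e]
        field_simp
        ring
      · have e : (i : ℝ) = d - 1 := by rw [hii.1, Nat.cast_sub (by omega)]; norm_num
        have e' : (i' : ℝ) = 0 := by rw [hii.2]; norm_num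
        rw [← Real.cos_neg (2 * (Real.pi / d)), ← Real.cos_add_two_pi (-(2 * (Real.pi / d)))]
        congr 1
        push_cast
        rw [e, e']
        field_simp
        ring
      · have e : (i' : ℝ) = d - 1 := by rw [hii.1, Nat.cast_sub (by omega)]; norm_num
        have e' : (i : ℝ) = 0 := by rw [hii.2]; norm_num
        rw [← Real.cos_sub_two_pi (2 * (Real.pi / d))]
        congr 1
        push_cast
        rw [e, e']
        field_simp
        ring
    rw [hML, hDc]
    ring
  have caseB : j' = j + 1 → (i' = i ∨ i = i' + 1 ∨ (i = 0 ∧ i' = d - 1)) →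
      Orth (ring d j i) (ring d j' i') := by
    intro h hii
    apply hOr
    have hML : M = L * lam d := by rw [hM, hL, h, pow_succ]
    have hj : (j' : ℝ) = j + 1 := by exact_mod_cast h
    have hDc : D = Real.cos (Real.pi / d) := by
      rw [hD]
      rcases hii with hii | hii | hii
      · have e : (i' : ℝ) = i := by exact_mod_cast hii
        rw [← Real.cos_neg (Real.pi / d)]
        congr 1
        push_cast
        rw [e, hj]
        field_simp
        ring
      · have e : (i : ℝ) = i' + 1 := by exact_mod_cast hii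
        congr 1
        push_cast
        rw [e, hj]
        field_simp
        ring
      · have e : (i' : ℝ) = d - 1 := by rw [hii.2, Nat.cast_sub (by omega)]; norm_num
        have e' : (i : ℝ) = 0 := by rw [hii.1]; norm_num
        rw [← Real.cos_sub_two_pi (Real.pi / d)]
        congr 1
        push_cast
        rw [e, e', hj]
        field_simp
        ring
    have e4 : c * (lam d ^ 2 + 1) = 2 * Real.cos (Real.pi / d) * lam d := by
      rw [lam2]
      field_simp
    rw [hML, hDc]
    linear_combination L ^ 2 * e4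
  refine ⟨caseA, caseB, ?_⟩
  intro hne
  obtain ⟨m, hm⟩ := Nat.exists_eq_add_of_le hjj
  have hs1 : -(d : ℤ) < (i : ℤ) - i' := by omega
  have hs2 : (i : ℤ) - i' < d := by omega
  rcases Nat.lt_trichotomy m 1 with hm1 | hm1 | hm1
  · -- m = 0
    have hm0 : m = 0 := by omega
    have hj : j' = j := by omega
    have hii : i ≠ i' := by
      rintro rfl
      exact hne (by rw [hj])
    by_cases hcase : i' = i + 1 ∨ i = i' + 1 ∨ (i = d - 1 ∧ i' = 0) ∨ (i' = d - 1 ∧ i = 0)
    · right; exact caseA hj hcase
    · left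
      apply hDi
      have hML : M = L := by rw [hM, hL, hj]
      have hcos := hC d (2 * ((i : ℤ) - i') + ((j : ℤ) - j')) 4 (by omega) (by omega) (by
        intro k
        by_contra hcon
        push Not at hcon
        rw [abs_lt] at hcon
        obtain ⟨g1, g2⟩ := hcon
        rw [hj] at g1 g2
        have g3 : ∃ e : ℤ, (i : ℤ) - i' - d * k = e ∧ -1 ≤ e ∧ e ≤ 1 := by
          refine ⟨_, rfl, ?_, ?_⟩
          · have : (2 : ℤ) * ((i : ℤ) - i' - d * k) > -4 := by push_cast at g1; linarith
            omega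
          · have : (2 : ℤ) * ((i : ℤ) - i' - d * k) < 4 := by push_cast at g2; linarith
            omega
        obtain ⟨e, he, he1, he2⟩ := g3
        rcases int_k d _ k e hd hs1 hs2 he he1 he2 with hk | hk | hk
        · rw [hk, mul_zero] at he; omega
        · rw [hk, mul_one] at he; omega
        · rw [hk, mul_neg, mul_one] at he; omega)
      have h4 : Real.cos (Real.pi * (4 : ℕ) / d) = 2 * c ^ 2 - 1 := by
        rw [← hx2, ← Real.cos_two_mul]
        congr 1
        push_cast
        ring
      rw [h4, ← hD] at hcos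
      rw [hML]
      have hc2 : c ^ 2 < c := by nlinarith
      have : 0 < L * L := by positivity
      nlinarith
  · -- m = 1
    have hj : j' = j + 1 := by omega
    by_cases hcase : i' = i ∨ i = i' + 1 ∨ (i = 0 ∧ i' = d - 1)
    · right; exact caseB hj hcase
    · left
      apply hDi
      have hML : M = L * lam d := by rw [hM, hL, hj, pow_succ]
      have hjZ : (j' : ℤ) = j + 1 := by exact_mod_cast hj
      have hcos := hC d (2 * ((i : ℤ) - i') + ((j : ℤ) - j')) 3 (by omega) (by omega) (by
        intro k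
        by_contra hcon
        push Not at hcon
        rw [abs_lt] at hcon
        obtain ⟨g1, g2⟩ := hcon
        rw [hjZ] at g1 g2
        have g3 : ∃ e : ℤ, (i : ℤ) - i' - d * k = e ∧ 0 ≤ e ∧ e ≤ 1 := by
          refine ⟨_, rfl, ?_, ?_⟩
          · have : (2 : ℤ) * ((i : ℤ) - i' - d * k) - 1 > -3 := by push_cast at g1; linarith
            omega
          · have : (2 : ℤ) * ((i : ℤ) - i' - d * k) - 1 < 3 := by push_cast at g2; linarith
            omega
        obtain ⟨e, he, he1, he2⟩ := g3
        rcases int_k d _ k e hd hs1 hs2 he (by omega) he2 with hk | hk | hk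
        · rw [hk, mul_zero] at he; omega
        · rw [hk, mul_one] at he; omega
        · rw [hk, mul_neg, mul_one] at he; omega)
      have h3 : Real.cos (Real.pi * (3 : ℕ) / d) =
          4 * Real.cos (Real.pi / d) ^ 3 - 3 * Real.cos (Real.pi / d) := by
        rw [← Real.cos_three_mul]
        congr 1
        push_cast
        ring
      rw [h3, ← hD] at hcos
      set x := Real.cos (Real.pi / d) with hx
      have e4 : c * (lam d ^ 2 + 1) = 2 * x * lam d := by
        rw [lam2]
        field_simp
      have e5 : c * (L ^ 2 + (L * lam d) ^ 2) = 2 * (L * (L * lam d)) * x := by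
        linear_combination L ^ 2 * e4
      rw [hML, e5]
      apply mul_lt_mul_of_pos_left _ (by positivity)
      have e6 : 0 < (1 - x ^ 2) * (4 * x - 2) := by
        apply mul_pos
        · have : (1 - x ^ 2) = (1 - x) * (1 + x) := by ring
          rw [this]
          exact mul_pos (by linarith) (by linarith)
        · linarith
      have e7 : (1 - x ^ 2) * (4 * x - 2) = 4 * x - 4 * x ^ 3 - 2 + 2 * x ^ 2 := by ring
      rw [e7] at e6
      linarith
  · -- m ≥ 2
    left
    apply hDi
    have hML : M = L * lam d ^ m := by rw [hM, hL, hm, pow_add]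
    set K := lam d ^ m with hK
    set N := lam d ^ 2 with hN
    have hN1 : 1 < N := by rw [hN]; nlinarith
    have hKN : N ≤ K := pow_le_pow_right₀ lam1.le hm1
    have hDle : D ≤ 1 := Real.cos_le_one _
    have g1 : 0 ≤ (K - N) * (K * N - 1) := by
      apply mul_nonneg (by linarith)
      nlinarith
    have g2 : M * (N ^ 2 + 1) * L ≤ N * (L ^ 2 + M ^ 2) := by
      rw [hML]
      nlinarith [mul_nonneg (mul_pos hL0 hL0).le g1]
    set x := Real.cos (Real.pi / d) with hx
    have e4 : c * (N + 1) = 2 * x * lam d := by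
      rw [hN, lam2]
      field_simp
    have e5 : c ^ 2 * (N ^ 2 + 1) = N * (4 * x ^ 2 - 2 * c ^ 2) := by
      have : (c * (N + 1)) ^ 2 = 4 * x ^ 2 * N := by rw [e4, hN]; ring
      linear_combination this
    have e6 : c ^ 2 * (N ^ 2 + 1) = N * (2 * (1 + c) - 2 * c ^ 2) := by
      rw [e5, c2]; ring
    have e7 : c * (2 * N * (2 - c)) < c * (c * (N ^ 2 + 1)) := by
      have : c * (c * (N ^ 2 + 1)) - c * (2 * N * (2 - c)) = 2 * N * (1 - c) := by
        linear_combination e6
      have h2 : 0 < 2 * N * (1 - c) := by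
        apply mul_pos (by linarith) (by linarith)
      linarith
    have e8 : 2 * N * (2 - c) < c * (N ^ 2 + 1) := lt_of_mul_lt_mul_left e7 c0.le
    have hN0 : 0 < N := by linarith
    have e9 : N * (2 * (L * M) * (D + 1 - c)) < N * (c * (L ^ 2 + M ^ 2)) := by
      have hLM : 0 < L * M := by positivity
      calc N * (2 * (L * M) * (D + 1 - c)) ≤ (2 * N * (2 - c)) * (L * M) := by
            have : 2 * (L * M) * (D + 1 - c) ≤ 2 * (L * M) * (2 - c) := by
              apply mul_le_mul_of_nonneg_left _ (by positivity)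
              linarith
            calc N * (2 * (L * M) * (D + 1 - c)) ≤ N * (2 * (L * M) * (2 - c)) :=
                  mul_le_mul_of_nonneg_left this hN0.le
              _ = (2 * N * (2 - c)) * (L * M) := by ring
        _ < (c * (N ^ 2 + 1)) * (L * M) := mul_lt_mul_of_pos_right e8 hLM
        _ = c * (M * (N ^ 2 + 1) * L) := by ring
        _ ≤ c * (N * (L ^ 2 + M ^ 2)) := mul_le_mul_of_nonneg_left g2 c0.le
        _ = N * (c * (L ^ 2 + M ^ 2)) := by ring
    exact lt_of_mul_lt_mul_left e9 hN0.le

theorem t_ring (hO : S_Orth) (hP : S_Par) (hC : S_Cos) : S_Ring := by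
  intro d hd j i j' i' hi hi'
  refine ⟨?_, ?_, ?_, ?_⟩
  · intro h hii
    refine (ring_le hO hP hC d hd j i j' i' hi hi' h.ge).1 h ?_
    rcases hii with h1 | h1
    · exact Or.inl h1
    · exact Or.inr (Or.inr (Or.inl h1))
  · intro h hii
    exact (ring_le hO hP hC d hd j i j' i' hi hi' (by omega)).2.1 h hii
  · intro hne
    rcases le_total j j' with h | h
    · exact (ring_le hO hP hC d hd j i j' i' hi hi' h).2.2 hne
    · rcases (ring_le hO hP hC d hd j' i' j i hi' hi h).2.2 (Ne.symm hne) with h' | h'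
      · exact Or.inl h'.symm
      · exact Or.inr (orth_symm _ _ h')
  · intro he
    obtain ⟨c0, c1, c2, x1, x2, rr0, rho2, rr2, rho1, lam1, lam2, hlr⟩ := hP d hd
    have hdR : (5 : ℝ) ≤ d := by exact_mod_cast hd
    have hd0 : (0 : ℝ) < d := by linarith
    have lam0 : 0 < lam d := by linarith
    have h2 : (ring d j i).2 = (ring d j' i').2 := by rw [he]
    have h3 : lam d ^ j * rr d = lam d ^ j' * rr d := h2
    have h4 := mul_right_cancel₀ rr0.ne' h3
    have hj : j = j' := (pow_right_injective₀ lam0 lam1.ne') h4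
    refine ⟨hj, ?_⟩
    by_contra hii
    have hdist := ring_dist d j i j' i' hd0.ne'
    rw [he, dist_self, ← hj] at hdist
    have hcos := hC d (2 * ((i : ℤ) - i') + ((j : ℤ) - j)) 2 (by omega) (by omega) (by
        intro k
        by_contra hcon
        push Not at hcon
        rw [abs_lt] at hcon
        obtain ⟨g1, g2⟩ := hcon
        have hs1 : -(d : ℤ) < (i : ℤ) - i' := by omega
        have hs2 : (i : ℤ) - i' < d := by omega
        have g3 : ∃ e : ℤ, (i : ℤ) - i' - d * k = e ∧ e = 0 := by
          refine ⟨_, rfl, ?_⟩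
          have a1 : (2 : ℤ) * ((i : ℤ) - i' - d * k) > -2 := by push_cast at g1; linarith
          have a2 : (2 : ℤ) * ((i : ℤ) - i' - d * k) < 2 := by push_cast at g2; linarith
          omega
        obtain ⟨e, he, he1⟩ := g3
        rcases int_k d _ k e hd hs1 hs2 he (by omega) (by omega) with hk | hk | hk
        · rw [hk, mul_zero] at he; omega
        · rw [hk, mul_one] at he; omega
        · rw [hk, mul_neg, mul_one] at he; omega)
    have h6 : Real.cos (Real.pi * (2 : ℕ) / d) = cc d := by
      unfold cc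
      congr 1
      push_cast
      ring
    rw [h6] at hcos
    set D := Real.cos (Real.pi * ((2 * ((i : ℤ) - i') + ((j : ℤ) - j) : ℤ) : ℝ) / d) with hD
    have hL : 0 < lam d ^ j * lam d ^ j := by positivity
    have h7 : lam d ^ (2 * j) = lam d ^ j * lam d ^ j := by rw [two_mul, pow_add]
    rw [h7] at hdist
    have h8 : 0 < rho d ^ 2 * (lam d ^ j * lam d ^ j + lam d ^ j * lam d ^ j -
      2 * (lam d ^ j * lam d ^ j) * D) := by
      apply mul_pos (by positivity)
      nlinarith
    rw [← hdist] at h8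
    norm_num at h8

theorem t_conc (hO : S_Orth) (hP : S_Par) : S_Conc := by
  intro d hd k j i l
  obtain ⟨c0, c1, c2, x1, x2, rr0, rho2, rr2, rho1, lam1, lam2, hlr⟩ := hP d hd
  have lam0 : 0 < lam d := by linarith
  have hinj : ∀ a b : ℕ, lam d ^ a = lam d ^ b → a = b := fun a b h =>
    (pow_right_injective₀ lam0 lam1.ne') h
  have hcn : ∀ j i : ℕ, ‖(ring d j i).1‖ = lam d ^ j * rho d := by
    intro j i
    unfold ring
    rw [norm_mul, Complex.norm_exp_ofReal_mul_I, mul_one, Complex.norm_real, Real.norm_eq_abs,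
      abs_of_pos (by positivity)]
  have hrho : rho d ^ 2 = rr d ^ 2 + 1 := by rw [rho2, rr2]; ring
  refine ⟨?_, ?_, ?_, ?_, ?_⟩
  · refine hO 0 (ring d j i).1 (lam d ^ j) (ring d j i).2 (by positivity) ?_ ?_
    · show 0 < lam d ^ j * rr d
      positivity
    · rw [dist_zero_left, hcn]
      show _ = _ + (lam d ^ j * rr d) ^ 2
      rw [mul_pow, hrho]
      ring
  · intro hkj
    rw [Set.disjoint_left]
    intro z hz hz'
    unfold pts at hz hz'
    rw [mem_sphere, dist_eq_norm] at hz hz'
    have hz1 : ‖z‖ = lam d ^ k := by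
      have : z - (conc d k).1 = z := by unfold conc; simp
      rw [this] at hz
      exact hz
    have hz2 : ‖z - (ring d j i).1‖ = lam d ^ j * rr d := hz'
    have hb := hcn j i
    set b := (ring d j i).1 with hbdef
    have t1 : ‖z‖ ≤ ‖z - b‖ + ‖b‖ := by
      have := norm_add_le (z - b) b
      rwa [sub_add_cancel] at this
    have t2 : ‖b‖ ≤ ‖z - b‖ + ‖z‖ := by
      have := norm_add_le (b - z) z
      rwa [sub_add_cancel, norm_sub_rev b z] at this
    rw [hz1, hz2, hb] at t1 t2
    have hLj : 0 < lam d ^ j := by positivity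
    have hLk : 0 < lam d ^ k := by positivity
    rcases lt_or_gt_of_ne hkj with h | h
    · have h5 : lam d ^ k * lam d ≤ lam d ^ j := by
        rw [← pow_succ]
        exact pow_le_pow_right₀ lam1.le h
      have h6 : (rho d - rr d) * (rho d + rr d) = 1 := by linear_combination hrho
      have h7 : lam d ^ j * (rho d - rr d) ≤ lam d ^ k := by linarith
      have h8 : lam d ^ j * (rho d - rr d) * (rho d + rr d) ≤ lam d ^ k * (rho d + rr d) :=
        mul_le_mul_of_nonneg_right h7 (by positivity)
      have h9 : lam d ^ j * (rho d - rr d) * (rho d + rr d) = lam d ^ j := by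
        rw [mul_assoc, h6, mul_one]
      have h10 : lam d ^ k * (rho d + rr d) < lam d ^ k * lam d :=
        mul_lt_mul_of_pos_left hlr hLk
      linarith
    · have h5 : lam d ^ j * lam d ≤ lam d ^ k := by
        rw [← pow_succ]
        exact pow_le_pow_right₀ lam1.le h
      have h10 : lam d ^ j * (rho d + rr d) < lam d ^ j * lam d :=
        mul_lt_mul_of_pos_left hlr hLj
      linarith
  · intro hkl
    rw [Set.disjoint_left]
    intro z hz hz'
    unfold pts conc at hz hz'
    rw [mem_sphere, dist_eq_norm] at hz hz'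
    exact hkl (hinj k l (hz.symm.trans hz'))
  · intro h
    have h2 : (conc d k).2 = (conc d l).2 := by rw [h]
    exact hinj k l h2
  · intro h
    have h2 : (conc d k).1 = (ring d j i).1 := by rw [h]
    have h3 := hcn j i
    rw [← h2] at h3
    have h4 : ‖(conc d k).1‖ = 0 := by unfold conc; simp
    rw [h4] at h3
    have : 0 < lam d ^ j * rho d := by positivity
    linarith

end Pool.Agent.Q187.OC
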