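import Pool.Agent.Q187.OC.ORTH

set_option autoImplicit false

open Metric Set Topology Filter

namespace Pool.Agent.Q187.OC

open Pool.Agent.Q266.OC

theorem ev_small (a b : ℝ) (hb : 0 < b) : ∀ᶠ t : ℝ in 𝓝[>] 0, t * a < b := by
  have hc : Continuous (fun t : ℝ => t * a) := by fun_prop
  have h := hc.tendsto 0
  simp only [zero_mul] at h
  exact (h.mono_left nhdsWithin_le_nhds).eventually (gt_mem_nhds hb)

theorem t_sel : S_Sel := by
  classical
  intro A hA P hP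
  have h1 : ∀ p ∈ P, ∃ S T : ℂ × ℝ, ∃ q : ℂ, S ∈ A ∧ T ∈ A ∧ S ≠ T ∧ q ≠ p ∧ p ∈ pts S ∧
      q ∈ pts S ∧ p ∈ pts T ∧ q ∈ pts T := by
    intro p hp
    obtain ⟨S, hS, T, hT, hST, pS, pT⟩ := hP hp
    have ho : Orth S T := by
      rcases hA.2 S hS T hT hST with h | h
      · exact absurd pT (Set.disjoint_left.1 h pS)
      · exact h
    obtain ⟨x, y, hxy, he⟩ := Set.ncard_eq_two.1 ho.1
    have hx : x ∈ pts S ∩ pts T := by rw [he]; exact Set.mem_insert _ _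
    have hy : y ∈ pts S ∩ pts T := by rw [he]; exact Set.mem_insert_of_mem _ rfl
    by_cases hxp : x = p
    · exact ⟨S, T, y, hS, hT, hST, fun h => hxy (hxp.trans h.symm), pS, hy.1, pT, hy.2⟩
    · exact ⟨S, T, x, hS, hT, hST, hxp, pS, hx.1, pT, hx.2⟩
  choose! X Y q hXY using h1
  have hdel : ∀ p ∈ P, ∀ Z ∈ A, Z ≠ X p → Z ≠ Y p → 0 < |‖p - Z.1‖ - Z.2| := by
    intro p hp Z hZ hZX hZY
    obtain ⟨a1, a2, a3, a4, a5, a6, a7, a8⟩ := hXY p hp
    rw [abs_pos, sub_ne_zero]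
    intro h
    have hpZ : p ∈ pts Z := by
      unfold pts
      rw [mem_sphere, dist_eq_norm]
      exact h
    exact t_three A hA (X p) a1 (Y p) a2 Z hZ a3 (Ne.symm hZX) (Ne.symm hZY) p ⟨a5, a7, hpZ⟩
  have hev : ∀ᶠ t : ℝ in 𝓝[>] 0, t < 1 / 2 ∧ 0 < t ∧
      (∀ p ∈ P, ∀ Z ∈ A, Z ≠ X p → Z ≠ Y p → t * (2 * ‖p - q p‖) < |‖p - Z.1‖ - Z.2|) ∧
      (∀ p ∈ P, ∀ p' ∈ P, p ≠ p' → t * (4 * ‖p - q p‖) < ‖p - p'‖) := by
    refine (((ev_small 1 (1 / 2) (by norm_num)).mono (fun t h => by simpa using h))).and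
      ((eventually_mem_nhdsWithin.mono (fun t h => h)).and (Filter.Eventually.and ?_ ?_))
    · rw [Filter.eventually_all_finset]
      intro p hp
      rw [Filter.eventually_all_finset]
      intro Z hZ
      by_cases hc : Z ≠ X p ∧ Z ≠ Y p
      · exact (ev_small _ _ (hdel p hp Z hZ hc.1 hc.2)).mono (fun t h _ _ => h)
      · exact Filter.Eventually.of_forall (fun t h h' => absurd ⟨h, h'⟩ hc)
    · rw [Filter.eventually_all_finset]
      intro p hp
      rw [Filter.eventually_all_finset]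
      intro p' hp'
      by_cases hc : p ≠ p'
      · exact (ev_small _ _ (norm_pos_iff.2 (sub_ne_zero.2 hc))).mono (fun t h _ => h)
      · exact Filter.Eventually.of_forall (fun t h => absurd h hc)
  obtain ⟨t, ht2, ht0, hc1, hc2⟩ := hev.exists
  refine ⟨X, Y, q, t, ht0, by linarith, hXY, ?_, ?_⟩
  · intro p hp Z hZ hZX hZY z hz
    have e := hc1 p hp Z hZ hZX hZY
    have hzc : ‖z - Z.1‖ = Z.2 := by
      unfold pts at hz
      rwa [mem_sphere, dist_eq_norm] at hz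
    have h3 : |‖p - Z.1‖ - Z.2| ≤ ‖z - p‖ := by
      rw [← hzc]
      have := abs_norm_sub_norm_le (p - Z.1) (z - Z.1)
      have e2 : p - Z.1 - (z - Z.1) = p - z := by ring
      rw [e2, norm_sub_rev p z] at this
      exact this
    have h4 : ‖z - q p‖ ≤ ‖z - p‖ + ‖p - q p‖ := by
      have := norm_add_le (z - p) (p - q p)
      rwa [sub_add_sub_cancel] at this
    have h5 : t * ‖z - q p‖ ≤ t * (‖z - p‖ + ‖p - q p‖) := mul_le_mul_of_nonneg_left h4 ht0.le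
    have h6 : t * ‖z - p‖ ≤ 1 / 2 * ‖z - p‖ := mul_le_mul_of_nonneg_right ht2.le (norm_nonneg _)
    nlinarith
  · intro p hp p' hp' hpp z hz
    have e1 := hc2 p hp p' hp' hpp
    have e2 := hc2 p' hp' p hp (Ne.symm hpp)
    rw [norm_sub_rev p' p] at e2
    have h4 : ‖z - q p‖ ≤ ‖z - p‖ + ‖p - q p‖ := by
      have := norm_add_le (z - p) (p - q p)
      rwa [sub_add_sub_cancel] at this
    have h4' : ‖z - q p'‖ ≤ ‖z - p'‖ + ‖p' - q p'‖ := by
      have := norm_add_le (z - p') (p' - q p')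
      rwa [sub_add_sub_cancel] at this
    have h5 : t * ‖z - q p‖ ≤ t * (‖z - p‖ + ‖p - q p‖) := mul_le_mul_of_nonneg_left h4 ht0.le
    have h5' : t * ‖z - q p'‖ ≤ t * (‖z - p'‖ + ‖p' - q p'‖) :=
      mul_le_mul_of_nonneg_left h4' ht0.le
    have h6 : t * ‖z - p‖ ≤ 1 / 2 * ‖z - p‖ := mul_le_mul_of_nonneg_right ht2.le (norm_nonneg _)
    have h6' : t * ‖z - p'‖ ≤ 1 / 2 * ‖z - p'‖ :=
      mul_le_mul_of_nonneg_right ht2.le (norm_nonneg _)
    have h7 : ‖p - p'‖ ≤ ‖z - p‖ + ‖z - p'‖ := by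
      have := norm_add_le (p - z) (z - p')
      rw [sub_add_sub_cancel, norm_sub_rev p z] at this
      exact this
    nlinarith

end Pool.Agent.Q187.OC
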